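import Pool.Agent.helper10.ICS.Def

set_option autoImplicit false

/-!
# Monotonicity, single steps with status, the clock
-/

namespace Pool.Agent.ICS

open scoped Classical

attribute [instance] TM.finQ TM.finΓ TM.finW

theorem runFrom_mono (M : TM) : ∀ (n m : ℕ) (c : Cfg M) (o : Option Out), n ≤ m →
    runFrom M n c = some o → runFrom M m c = some o := by
  intro n
  induction n with
  | zero => intro m c o _ h; simp [runFrom] at h
  | succ n ih =>
    intro m c o hm h
    obtain ⟨m, rfl⟩ : ∃ m', m = m' + 1 := ⟨m - 1, by omega⟩
    unfold runFrom at h ⊢
    cases hs : next M c with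
    | inl s => rw [hs] at h; exact h
    | inr c' => rw [hs] at h; exact ih m c' o (by omega) h

theorem run_mono (M : TM) (p y z : Str) {n m : ℕ} {o : Option Out} (hnm : n ≤ m)
    (h : run M p y z n = some o) : run M p y z m = some o := runFrom_mono M n m _ o hnm h

theorem run_unique (M : TM) (p y z : Str) {n m : ℕ} {o o' : Option Out}
    (h : run M p y z n = some o) (h' : run M p y z m = some o') : o = o' := by
  have h1 := run_mono M p y z (le_max_left n m) h
  have h2 := run_mono M p y z (le_max_right n m) h'
  rw [h1] at h2
  exact Option.some.inj h2

/-- A configuration with a status: running, or halted. -/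
abbrev PC (M : TM) := Cfg M × Option Stop

/-- One step of a configuration with status. -/
def cstep (M : TM) (c : PC M) : PC M :=
  match c.2 with
  | some _ => c
  | none =>
    match next M c.1 with
    | .inl s => (c.1, some s)
    | .inr c' => (c', none)

theorem cstep_halted (M : TM) (c : Cfg M) (s : Stop) : cstep M (c, some s) = (c, some s) := rfl

theorem cstep_iterate_halted (M : TM) (c : Cfg M) (s : Stop) (n : ℕ) : (cstep M)^[n] (c, some s) = (c, some s) := by
  induction n with
  | zero => rfl
  | succ n ih => rw [Function.iterate_succ_apply, cstep_halted, ih]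

/-- `runFrom` in terms of `cstep`. -/
theorem runFrom_eq (M : TM) : ∀ (n : ℕ) (c : Cfg M),
    runFrom M n c = ((cstep M)^[n] (c, none)).2.map (output M ((cstep M)^[n] (c, none)).1) := by
  intro n
  induction n with
  | zero => intro c; rfl
  | succ n ih =>
    intro c
    rw [Function.iterate_succ_apply]
    unfold runFrom
    cases hs : next M c with
    | inl s =>
      have : cstep M (c, none) = (c, some s) := by simp [cstep, hs]
      rw [this, cstep_iterate_halted]
      rfl
    | inr c' =>
      have : cstep M (c, none) = (c', none) := by simp [cstep, hs]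
      rw [this]
      exact ih c'

/-- The status after `n` steps on the inputs `p`, `y`, `z`. -/
def stat (M : TM) (p y z : Str) (n : ℕ) : Option Stop := ((cstep M)^[n] (init M p y z, none)).2

theorem run_isSome_iff (M : TM) (p y z : Str) (n : ℕ) : (∃ o, run M p y z n = some o) ↔ ∃ s, stat M p y z n = some s := by
  unfold run stat
  rw [runFrom_eq]
  cases ((cstep M)^[n] (init M p y z, none)).2 with
  | none => simp
  | some s => simp

theorem run_bit_iff (M : TM) (p y z : Str) (n : ℕ) (b : Bool) :
    run M p y z n = some (some (Sum.inr (some b))) ↔ stat M p y z n = some (Stop.bit b) := by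
  unfold run stat
  rw [runFrom_eq]
  cases ((cstep M)^[n] (init M p y z, none)).2 with
  | none => simp
  | some s => cases s <;> simp [output]

theorem stat_mono (M : TM) (p y z : Str) {n m : ℕ} {s : Stop} (hnm : n ≤ m) (h : stat M p y z n = some s) :
    stat M p y z m = some s := by
  unfold stat at h ⊢
  obtain ⟨k, rfl⟩ := Nat.exists_eq_add_of_le hnm
  rw [Nat.add_comm, Function.iterate_add_apply]
  obtain ⟨c, hc⟩ : ∃ c, (cstep M)^[n] (init M p y z, none) = (c, some s) := ⟨_, Prod.ext rfl h⟩
  rw [hc, cstep_iterate_halted]

/-- The run is consistent with the answer `b`: it has halted within `n` steps, without output, with `⊥` or with `b`. -/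
def Okay (s : Option Stop) (b : Bool) : Prop := s = some .nothing ∨ s = some .dontKnow ∨ s = some (.bit b)

theorem okay_iff (M : TM) (p y z : Str) (n : ℕ) (b : Bool) :
    (∃ o, run M p y z n = some o ∧ ∀ v, o = some v → v = Sum.inr none ∨ v = Sum.inr (some b)) ↔
      Okay (stat M p y z n) b := by
  unfold run stat Okay
  rw [runFrom_eq]
  cases ((cstep M)^[n] (init M p y z, none)).2 with
  | none => simp
  | some s => cases s <;> simp [output]

theorem consistent_iff (M : TM) (t : ℕ → ℕ) (A : Set Str) (p : Str) :
    Consistent M t A p ↔ ∀ z, Okay (stat M p [] z (t z.length)) (chi A z) :=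
  forall_congr' fun z => okay_iff M p [] z _ _

/-! ## the clock -/

theorem apply_le (m : Move) (h : ℕ) : m.apply h ≤ h + 1 := by
  cases m <;> simp [Move.apply]; omega

theorem next_head (M : TM) (c c' : Cfg M) (h : next M c = .inr c') (j : Tape M.W) : c'.head j ≤ c.head j + 1 := by
  unfold next at h
  split at h
  · simp at h
  · obtain rfl := Sum.inr.inj h
    exact apply_le _ _

theorem cstep_head (M : TM) (c : PC M) (j : Tape M.W) : (cstep M c).1.head j ≤ c.1.head j + 1 := by
  obtain ⟨c, s⟩ := c
  cases s with
  | some s => rw [cstep_halted]; omega
  | none =>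
    cases hs : next M c with
    | inl s =>
      have : cstep M (c, none) = (c, some s) := by simp [cstep, hs]
      rw [this]; simp
    | inr c' =>
      have : cstep M (c, none) = (c', none) := by simp [cstep, hs]
      rw [this]
      exact next_head M c c' hs j

theorem cstep_iterate_head (M : TM) (c : PC M) (j : Tape M.W) (n : ℕ) :
    ((cstep M)^[n] c).1.head j ≤ c.1.head j + n := by
  induction n with
  | zero => simp
  | succ n ih =>
    rw [Function.iterate_succ_apply']
    have := cstep_head M ((cstep M)^[n] c) j
    omega

theorem word_length_le (M : TM) (T : ℕ → M.Γ) (h : ℕ) : (word M T h).length ≤ h := by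
  refine (List.length_filterMap_le _ _).trans ?_
  simp

/-- A machine which prints a string of length `l` runs at least `l` steps. -/
theorem length_le_of_run (M : TM) (p y z x : Str) (n : ℕ) (h : run M p y z n = some (some (Sum.inl x))) :
    x.length ≤ n := by
  unfold run at h
  rw [runFrom_eq] at h
  have hh := cstep_iterate_head M (init M p y z, none) Tape.out n
  cases hs : ((cstep M)^[n] (init M p y z, none)).2 with
  | none => rw [hs] at h; simp at h
  | some s =>
    rw [hs] at h
    cases s with
    | string =>
      simp only [Option.map_some, output, Option.some.injEq, Sum.inl.injEq] at h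
      rw [← h]
      refine (word_length_le M _ _).trans (hh.trans ?_)
      simp [init]
    | nothing => simp [output] at h
    | bit b => simp [output] at h
    | dontKnow => simp [output] at h

/-- The number of steps after which the run halts (`0` if it does not). -/
noncomputable def htime (M : TM) (p y z : Str) : ℕ := sInf {n | ∃ s, stat M p y z n = some s}

theorem htime_spec (M : TM) (p y z : Str) {n : ℕ} (h : ∃ s, stat M p y z n = some s) :
    (∃ s, stat M p y z (htime M p y z) = some s) ∧ htime M p y z ≤ n ∧
      ∀ m < htime M p y z, stat M p y z m = none := by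
  have hne : {n | ∃ s, stat M p y z n = some s}.Nonempty := ⟨n, h⟩
  refine ⟨Nat.sInf_mem hne, Nat.sInf_le h, fun m hm => ?_⟩
  have := Nat.notMem_of_lt_sInf hm
  rw [Set.mem_ofPred_eq] at this
  push Not at this
  cases hs : stat M p y z m with
  | none => rfl
  | some s => exact absurd hs (this s)

end Pool.Agent.ICS
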