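import Pool.Agent.helper10.ICS.Main
import Pool.Agent.helper10.ICO.Time

set_option autoImplicit false

/-!
# The final time bound
-/

namespace Pool.Agent.ICS

open scoped Classical

theorem run_time_mono (M : TM) {T T' : ℕ → ℕ} (h : ∀ n, T n ≤ T' n) (x : Str) : Cx M T' x ≤ Cx M T x := by
  refine le_iInf fun ⟨p, hp⟩ => ?_
  exact iInf_le_of_le ⟨p, run_mono _ _ _ _ (h _) hp⟩ le_rfl

theorem slow_le_bound (c K : ℕ) (t : ℕ → ℕ) : ∃ c', c ≤ c' ∧
    ∀ n, slow c (fun n => K * 2 ^ n * t n + K) n ≤ bound c' t n := by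
  set D := c * (8 * (K + 1) ^ 2) with hD
  obtain ⟨E, hE⟩ : ∃ E, E = slow c (fun n => K * 2 ^ n * t n + K) 0 := ⟨_, rfl⟩
  refine ⟨D * 2 + c + D + E, by omega, fun n => ?_⟩
  rcases Nat.eq_zero_or_pos n with rfl | hn
  · unfold bound
    refine Nat.le_floor ?_
    have hl : 0 ≤ Real.log (t 0 : ℝ) := Real.log_natCast_nonneg _
    have h0 : (0 : ℝ) ≤ ((D * 2 + c + D + E : ℕ) : ℝ) * 2 ^ 0 * t 0 *
        ((0 : ℕ) + Real.log (t 0)) := by
      push_cast
      positivity
    have h1 : ((slow c (fun n => K * 2 ^ n * t n + K) 0 : ℕ) : ℝ) ≤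
        ((D * 2 + c + D + E : ℕ) : ℝ) := by
      rw [← hE]
      exact_mod_cast Nat.le_add_left _ _
    linarith
  · have hl : 0 ≤ Real.log (t n : ℝ) := Real.log_natCast_nonneg _
    have h := Pool.Agent.ICO.mul_log_le K (2 ^ n * t n)
    have hc : (0 : ℝ) ≤ c := Nat.cast_nonneg c
    set m : ℕ := 2 ^ n * t n with hm
    have e : K * 2 ^ n * t n + K = K * m + K := by rw [hm]; ring
    unfold slow bound
    refine Nat.floor_le_floor ?_
    simp only
    rw [e]
    have h1 : (c : ℝ) * ((K * m + K : ℕ) : ℝ) * Real.log ((K * m + K : ℕ) : ℝ) ≤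
        (D : ℕ) * m * Real.log m + (D : ℕ) := by
      have := mul_le_mul_of_nonneg_left h hc
      rw [← mul_assoc] at this
      refine this.trans (le_of_eq ?_)
      rw [hD]
      push_cast
      ring
    have hD0 : (0 : ℝ) ≤ (D : ℕ) := Nat.cast_nonneg _
    have hs0 : (0 : ℝ) ≤ E := Nat.cast_nonneg _
    rcases Nat.eq_zero_or_pos (t n) with h0 | h0
    · have hm0 : m = 0 := by rw [hm, h0, Nat.mul_zero]
      rw [hm0] at h1 ⊢
      rw [h0]
      push_cast at h1 ⊢
      simp only [mul_zero, zero_mul, zero_add, add_zero] at h1 ⊢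
      nlinarith
    · have htn : (1 : ℝ) ≤ t n := by exact_mod_cast h0
      have hn1 : (1 : ℝ) ≤ n := by exact_mod_cast hn
      have hmc : (m : ℝ) = 2 ^ n * t n := by rw [hm]; push_cast; ring
      have hlog : Real.log (m : ℝ) ≤ n + Real.log (t n) := by
        rw [hmc, Real.log_mul (by positivity) (by positivity), Real.log_pow]
        have h2 : Real.log 2 ≤ 1 := by
          have := Real.log_two_lt_d9
          linarith
        nlinarith
      have hm0 : (0 : ℝ) ≤ m := Nat.cast_nonneg m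
      have h3 : (D : ℝ) * m * Real.log m ≤ D * m * (n + Real.log (t n)) :=
        mul_le_mul_of_nonneg_left hlog (by positivity)
      have h4 : (0 : ℝ) ≤ m * (n + Real.log (t n)) := by positivity
      have h5 : ((D * 2 + c + D + E : ℕ) : ℝ) * 2 ^ n * t n *
          (n + Real.log (t n)) = ((D * 2 + c + D + E : ℕ) : ℝ) *
          (m * (n + Real.log (t n))) := by rw [hmc]; ring
      rw [h5]
      push_cast at h1 ⊢
      nlinarith

end Pool.Agent.ICS
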