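import Pool.Agent.helper10.ICS.RunPhase

set_option autoImplicit false

/-!
# The control phases of the loop machine
-/

namespace Pool.Agent.ICS

/-- The successor of a string in the order of the lengths (least significant bit first). -/
def nx : Str → Str
  | [] => [false]
  | false :: x => true :: x
  | true :: x => false :: nx x

/-- The content of a tape as a function. -/
def gd (x : Str) (i : ℕ) : Option Bool := x[i]?

theorem gd_at (w y : Str) : gd (w ++ y) w.length = y[0]? := by
  unfold gd
  rw [List.getElem?_append_right le_rfl]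
  simp

theorem gd_update (w y : Str) (b c : Bool) : Function.update (gd (w ++ b :: y)) w.length (some c) = gd (w ++ c :: y) := by
  funext i
  unfold gd
  rcases Nat.lt_trichotomy i w.length with h | h | h
  · rw [Function.update_of_ne (by omega), List.getElem?_append_left h, List.getElem?_append_left h]
  · subst h
    rw [Function.update_self, List.getElem?_append_right le_rfl]
    simp
  · rw [Function.update_of_ne (by omega), List.getElem?_append_right (by omega), List.getElem?_append_right (by omega)]
    obtain ⟨k, hk⟩ : ∃ k, i - w.length = k + 1 := ⟨i - w.length - 1, by omega⟩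
    rw [hk]
    simp

theorem gd_extend (w : Str) (c : Bool) : Function.update (gd w) w.length (some c) = gd (w ++ [c]) := by
  funext i
  unfold gd
  rcases Nat.lt_trichotomy i w.length with h | h | h
  · rw [Function.update_of_ne (by omega), List.getElem?_append_left h]
  · subst h
    rw [Function.update_self, List.getElem?_append_right le_rfl]
    simp
  · rw [Function.update_of_ne (by omega), List.getElem?_append_right (by omega)]
    obtain ⟨k, hk⟩ : ∃ k, i - w.length = k + 1 := ⟨i - w.length - 1, by omega⟩
    rw [hk, List.getElem?_eq_none (by omega)]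
    simp

namespace Spec

open scoped Classical

variable {S : Spec} {v : Str}

/-- The bottom layer of a tape. -/
def bs (S : Spec) (μ : ℕ) (D : ℕ → Option Bool) (i : ℕ) : Sy S := ⟨decide (i = 0), decide (i < μ), D i, fun _ => none⟩

/-- The bottom layers of all tapes. -/
def bT (S : Spec) (μP : ℕ) (DP : ℕ → Option Bool) (μZ : ℕ) (DZ : ℕ → Option Bool) (τ : WT S) : ℕ → Sy S :=
  match S.cls τ with
  | .P => bs S μP DP
  | .Z => bs S μZ DZ
  | .O => bs S μZ DZ
  | .N => bs S 0 (gd [])

/-- The heads. -/
def bH (S : Spec) (hP hZ : ℕ) (τ : WT S) : ℕ :=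
  match S.cls τ with
  | .P => hP
  | .Z => hZ
  | .O => hZ
  | .N => 0

/-- A configuration of the control phases. -/
def cc (S : Spec) (q : Ct) (hin μP : ℕ) (DP : ℕ → Option Bool) (hP μZ : ℕ) (DZ : ℕ → Option Bool) (hZ : ℕ) (o : Str) :
    AC S := ⟨.inl q, hin, bT S μP DP μZ DZ, bH S hP hZ, o⟩

theorem bT_flag (μP : ℕ) (DP : ℕ → Option Bool) (μZ : ℕ) (DZ : ℕ → Option Bool) (τ : WT S) (i : ℕ) :
    (bT S μP DP μZ DZ τ i).flag = decide (i = 0) := by
  unfold bT
  cases S.cls τ <;> rfl

theorem bT_virt (μP : ℕ) (DP : ℕ → Option Bool) (μZ : ℕ) (DZ : ℕ → Option Bool) (τ : WT S) (i : ℕ) :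
    (bT S μP DP μZ DZ τ i).virt = fun _ => none := by
  unfold bT
  cases S.cls τ <;> rfl

theorem bs_update (μ : ℕ) (D : ℕ → Option Bool) (h : ℕ) (d : Option Bool) :
    Function.update (bs S μ D) h { bs S μ D h with data := d } = bs S μ (Function.update D h d) := by
  funext i
  by_cases hi : i = h
  · subst hi
    rw [Function.update_self]
    unfold bs
    rw [Function.update_self]
  · rw [Function.update_of_ne hi]
    unfold bs
    rw [Function.update_of_ne hi]

section steps

variable {q q' : Ct} {hin μP hP μZ hZ : ℕ} {DP DZ : ℕ → Option Bool} {o : Str}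

theorem astep_onP {d : Option Bool} {mv : Move}
    (hl : S.lδ (.inl q) (fun τ => bT S μP DP μZ DZ τ (bH S hP hZ τ)) (v[hin]?) = .inr (.inl q',
      S.onP (fun τ => bT S μP DP μZ DZ τ (bH S hP hZ τ)) (fun g => ({ g with data := d }, mv)), false, none)) :
    S.astep v (cc S q hin μP DP hP μZ DZ hZ o) =
      .inr (cc S q' hin μP (Function.update DP hP d) (mv.apply hP) μZ DZ hZ o) := by
  unfold astep cc
  simp only
  rw [hl]
  simp only [Bool.false_eq_true, if_false, Option.toList, List.append_nil, Sum.inr.injEq, AC.mk.injEq, true_and,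
    and_true]
  refine ⟨?_, ?_⟩
  · funext τ
    cases hc : S.cls τ with
    | P => simp only [onP, bT, bH, hc]; exact bs_update μP DP hP d
    | _ => simp only [onP, bT, bH, hc]; exact Function.update_eq_self _ _
  · funext τ
    cases hc : S.cls τ <;> simp only [onP, bH, hc] <;> rfl

theorem astep_onZ {d : Option Bool} {mv : Move}
    (hl : S.lδ (.inl q) (fun τ => bT S μP DP μZ DZ τ (bH S hP hZ τ)) (v[hin]?) = .inr (.inl q',
      S.onZ (fun τ => bT S μP DP μZ DZ τ (bH S hP hZ τ)) (fun g => ({ g with data := d }, mv)), false, none)) :
    S.astep v (cc S q hin μP DP hP μZ DZ hZ o) =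
      .inr (cc S q' hin μP DP hP μZ (Function.update DZ hZ d) (mv.apply hZ) o) := by
  unfold astep cc
  simp only
  rw [hl]
  simp only [Bool.false_eq_true, if_false, Option.toList, List.append_nil, Sum.inr.injEq, AC.mk.injEq, true_and,
    and_true]
  refine ⟨?_, ?_⟩
  · funext τ
    cases hc : S.cls τ with
    | Z => simp only [onZ, bT, bH, hc]; exact bs_update μZ DZ hZ d
    | O => simp only [onZ, bT, bH, hc]; exact bs_update μZ DZ hZ d
    | _ => simp only [onZ, bT, bH, hc]; exact Function.update_eq_self _ _
  · funext τ
    cases hc : S.cls τ <;> simp only [onZ, bH, hc] <;> rfl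

theorem astep_mvZ {mv : Move} {ob : Option Bool}
    (hl : S.lδ (.inl q) (fun τ => bT S μP DP μZ DZ τ (bH S hP hZ τ)) (v[hin]?) = .inr (.inl q',
      S.onZ (fun τ => bT S μP DP μZ DZ τ (bH S hP hZ τ)) (fun g => (g, mv)), false, ob)) :
    S.astep v (cc S q hin μP DP hP μZ DZ hZ o) = .inr (cc S q' hin μP DP hP μZ DZ (mv.apply hZ) (o ++ ob.toList)) := by
  unfold astep cc
  simp only
  rw [hl]
  simp only [Bool.false_eq_true, if_false, Sum.inr.injEq, AC.mk.injEq, true_and, and_true]
  refine ⟨?_, ?_⟩
  · funext τ
    cases hc : S.cls τ <;> simp only [onZ, bT, bH, hc] <;> exact Function.update_eq_self _ _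
  · funext τ
    cases hc : S.cls τ <;> simp only [onZ, bH, hc] <;> rfl

theorem astep_keep
    (hl : S.lδ (.inl q) (fun τ => bT S μP DP μZ DZ τ (bH S hP hZ τ)) (v[hin]?) = .inr (.inl q',
      S.keep (fun τ => bT S μP DP μZ DZ τ (bH S hP hZ τ)), false, none)) :
    S.astep v (cc S q hin μP DP hP μZ DZ hZ o) = .inr (cc S q' hin μP DP hP μZ DZ hZ o) := by
  unfold astep cc
  simp only
  rw [hl]
  simp only [keep, Bool.false_eq_true, if_false, Option.toList, List.append_nil, Function.update_eq_self]
  rfl

theorem read_tp (hcP : S.cls S.tp = .P) : bT S μP DP μZ DZ S.tp (bH S hP hZ S.tp) = bs S μP DP hP := by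
  unfold bT bH
  rw [hcP]

theorem read_tz (hcZ : S.cls S.tz = .Z) : bT S μP DP μZ DZ S.tz (bH S hP hZ S.tz) = bs S μZ DZ hZ := by
  unfold bT bH
  rw [hcZ]

end steps

section eqs

variable {r : WT S → Sy S} {ib : Option Bool}

theorem lδ_incP_true (h : (r S.tp).data = some true) : S.lδ (.inl .incP) r ib =
    .inr (.inl .incP, S.onP r (fun g => ({ g with data := some false }, .right)), false, none) := by
  unfold lδ; simp only [h]

theorem lδ_incP_false (h : (r S.tp).data = some false) : S.lδ (.inl .incP) r ib =
    .inr (.inl .rew, S.onP r (fun g => ({ g with data := some true }, .stay)), false, none) := by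
  unfold lδ; simp only [h]

theorem lδ_incP_none (h : (r S.tp).data = none) (hm : (r S.tp).mark = true) : S.lδ (.inl .incP) r ib =
    .inr (.inl .rew, S.onP r (fun g => ({ g with data := some false }, .stay)), false, none) := by
  unfold lδ; simp only [h, hm, if_true]

theorem lδ_incP_end (h : (r S.tp).data = none) (hm : (r S.tp).mark = false) : S.lδ (.inl .incP) r ib =
    .inr (.inl .rewO, S.keep r, false, none) := by
  unfold lδ; simp only [h, hm, Bool.false_eq_true, if_false]

theorem lδ_clrP_some {b : Bool} (h : (r S.tp).data = some b) : S.lδ (.inl .clrP) r ib =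
    .inr (.inl .clrP, S.onP r (fun g => ({ g with data := none }, .right)), false, none) := by
  unfold lδ; simp only [h]

theorem lδ_clrP_none (h : (r S.tp).data = none) : S.lδ (.inl .clrP) r ib =
    .inr (.inl .skipZ, S.keep r, false, none) := by
  unfold lδ; simp only [h]

theorem lδ_skipZ_true (h : (r S.tz).mark = true) : S.lδ (.inl .skipZ) r ib =
    .inr (.inl .skipZ, S.onZ r (fun g => (g, .right)), false, none) := by
  unfold lδ; simp only [h, if_true]

theorem lδ_skipZ_false (h : (r S.tz).mark = false) : S.lδ (.inl .skipZ) r ib =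
    .inr (.inl .incZ, S.keep r, false, none) := by
  unfold lδ; simp only [h, Bool.false_eq_true, if_false]

theorem lδ_incZ_true (h : (r S.tz).data = some true) : S.lδ (.inl .incZ) r ib =
    .inr (.inl .incZ, S.onZ r (fun g => ({ g with data := some false }, .right)), false, none) := by
  unfold lδ; simp only [h]

theorem lδ_incZ_false (h : (r S.tz).data = some false) : S.lδ (.inl .incZ) r ib =
    .inr (.inl .rew, S.onZ r (fun g => ({ g with data := some true }, .stay)), false, none) := by
  unfold lδ; simp only [h]

theorem lδ_incZ_none (h : (r S.tz).data = none) : S.lδ (.inl .incZ) r ib =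
    .inr (.inl .rew, S.onZ r (fun g => ({ g with data := some false }, .stay)), false, none) := by
  unfold lδ; simp only [h]

theorem lδ_outp_some {b : Bool} (h : (r S.tz).data = some b) : S.lδ (.inl .outp) r ib =
    .inr (.inl .outp, S.onZ r (fun g => (g, .right)), false, some b) := by
  unfold lδ; simp only [h]

theorem lδ_outp_none (h : (r S.tz).data = none) : S.lδ (.inl .outp) r ib = .inl .string := by
  unfold lδ; simp only [h]

end eqs

section reach

variable {hin μP hP μZ hZ : ℕ} {DP DZ : ℕ → Option Bool} {o : Str}

/-- Incrementing `P`. -/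
theorem incP_reach (hcP : S.cls S.tp = .P) :
    ∀ (y w : Str), w.length + (nx y).length ≤ μP →
      ∃ hP' ≤ w.length + y.length, RL S v (cc S .incP hin μP (gd (w ++ y)) w.length μZ DZ hZ o) (y.length + 1)
        (cc S .rew hin μP (gd (w ++ nx y)) hP' μZ DZ hZ o) := by
  intro y
  induction y with
  | nil =>
    intro w hw
    have hlt : w.length < μP := by simpa [nx] using hw
    have hs := astep_onP (S := S) (v := v) (q := .incP) (q' := .rew) (hin := hin) (μP := μP) (DP := gd (w ++ []))
      (hP := w.length) (μZ := μZ) (DZ := DZ) (hZ := hZ) (o := o) (d := some false) (mv := .stay)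
      (lδ_incP_none (by rw [read_tp hcP]; exact (gd_at w []).trans rfl) (by
        rw [read_tp hcP]; show decide (w.length < μP) = true; simpa using hlt))
    refine ⟨w.length, by simp, ?_⟩
    refine RL.cons hs ?_
    have e : Function.update (gd (w ++ [])) w.length (some false) = gd (w ++ nx []) := by
      simp only [List.append_nil, nx]
      exact gd_extend w false
    rw [e]
    exact RL.refl _
  | cons b y ih =>
    intro w hw
    cases b with
    | false =>
      have hs := astep_onP (S := S) (v := v) (q := .incP) (q' := .rew) (hin := hin) (μP := μP)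
        (DP := gd (w ++ false :: y)) (hP := w.length) (μZ := μZ) (DZ := DZ) (hZ := hZ) (o := o) (d := some true)
        (mv := .stay) (lδ_incP_false (by rw [read_tp hcP]; exact (gd_at w (false :: y)).trans rfl))
      refine ⟨w.length, by simp, ?_⟩
      rw [gd_update] at hs
      exact (RL.cons hs (RL.refl _)).mono (by simp)
    | true =>
      have hs := astep_onP (S := S) (v := v) (q := .incP) (q' := .incP) (hin := hin) (μP := μP)
        (DP := gd (w ++ true :: y)) (hP := w.length) (μZ := μZ) (DZ := DZ) (hZ := hZ) (o := o) (d := some false)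
        (mv := .right) (lδ_incP_true (by rw [read_tp hcP]; exact (gd_at w (true :: y)).trans rfl))
      rw [gd_update] at hs
      obtain ⟨hP', h1, h2⟩ := ih (w ++ [false]) (by
        simp only [List.length_append, List.length_cons, List.length_nil, nx] at hw ⊢
        omega)
      refine ⟨hP', by simp only [List.length_append, List.length_cons, List.length_nil] at h1 ⊢; omega, ?_⟩
      have e1 : w ++ false :: y = (w ++ [false]) ++ y := by simp
      have e2 : Move.right.apply w.length = (w ++ [false]).length := by simp [Move.apply]
      rw [e1, e2] at hs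
      have h3 := RL.cons hs h2
      simpa [nx] using h3

/-- The string `P` is exhausted. -/
theorem incP_end (hcP : S.cls S.tp = .P) :
    ∀ (y w : Str), w.length + y.length = μP → (nx y).length = y.length + 1 →
      RL S v (cc S .incP hin μP (gd (w ++ y)) w.length μZ DZ hZ o) (y.length + 1)
        (cc S .rewO hin μP (gd (w ++ List.replicate y.length false)) μP μZ DZ hZ o) := by
  intro y
  induction y with
  | nil =>
    intro w hw _
    have hw' : w.length = μP := by simpa using hw
    have hs := astep_keep (S := S) (v := v) (q := .incP) (q' := .rewO) (hin := hin) (μP := μP) (DP := gd (w ++ []))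
      (hP := w.length) (μZ := μZ) (DZ := DZ) (hZ := hZ) (o := o)
      (lδ_incP_end (by rw [read_tp hcP]; exact (gd_at w []).trans rfl) (by
        rw [read_tp hcP]; show decide (w.length < μP) = false; simp [hw']))
    refine RL.cons hs ?_
    rw [hw']
    exact RL.refl _
  | cons b y ih =>
    intro w hw hn
    cases b with
    | false => simp [nx] at hn
    | true =>
      have hs := astep_onP (S := S) (v := v) (q := .incP) (q' := .incP) (hin := hin) (μP := μP)
        (DP := gd (w ++ true :: y)) (hP := w.length) (μZ := μZ) (DZ := DZ) (hZ := hZ) (o := o) (d := some false)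
        (mv := .right) (lδ_incP_true (by rw [read_tp hcP]; exact (gd_at w (true :: y)).trans rfl))
      rw [gd_update] at hs
      have h2 := ih (w ++ [false]) (by
        simp only [List.length_append, List.length_cons, List.length_nil] at hw ⊢
        omega) (by simpa [nx] using hn)
      have e1 : w ++ false :: y = (w ++ [false]) ++ y := by simp
      have e2 : Move.right.apply w.length = (w ++ [false]).length := by simp [Move.apply]
      rw [e1, e2] at hs
      have h3 := RL.cons hs h2
      simpa [List.replicate_succ] using h3

/-- The content of a tape of which the first `l` cells have been erased. -/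
def cl (l : ℕ) (y : Str) (i : ℕ) : Option Bool := if i < l then none else y[i]?

theorem cl_zero (y : Str) : cl 0 y = gd y := by
  funext i
  simp [cl, gd]

theorem cl_update (l : ℕ) (y : Str) : Function.update (cl l y) l none = cl (l + 1) y := by
  funext i
  unfold cl
  by_cases h : i = l
  · subst h; rw [Function.update_self, if_pos (by omega)]
  · rw [Function.update_of_ne h]
    by_cases h2 : i < l
    · rw [if_pos h2, if_pos (by omega)]
    · rw [if_neg h2, if_neg (by omega)]

theorem cl_end (y : Str) : cl y.length y = gd [] := by
  funext i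
  unfold cl gd
  by_cases h : i < y.length
  · rw [if_pos h]; rfl
  · rw [if_neg h, List.getElem?_eq_none (by omega)]; rfl

/-- Erasing `P`. -/
theorem clrP_reach (hcP : S.cls S.tp = .P) (y : Str) : ∀ (n l : ℕ), l + n = y.length →
      RL S v (cc S .clrP hin μP (cl l y) l μZ DZ hZ o) (n + 1)
        (cc S .skipZ hin μP (gd []) y.length μZ DZ hZ o) := by
  intro n
  induction n with
  | zero =>
    intro l hl
    have hl' : l = y.length := by omega
    subst hl'
    have hs := astep_keep (S := S) (v := v) (q := .clrP) (q' := .skipZ) (hin := hin) (μP := μP) (DP := cl y.length y)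
      (hP := y.length) (μZ := μZ) (DZ := DZ) (hZ := hZ) (o := o)
      (lδ_clrP_none (by rw [read_tp hcP]; show cl y.length y y.length = none; rw [cl_end]; rfl))
    refine RL.cons hs ?_
    rw [cl_end]
    exact RL.refl _
  | succ n ih =>
    intro l hl
    have hlt : l < y.length := by omega
    have hs := astep_onP (S := S) (v := v) (q := .clrP) (q' := .clrP) (hin := hin) (μP := μP)
      (DP := cl l y) (hP := l) (μZ := μZ) (DZ := DZ) (hZ := hZ) (o := o) (d := none)
      (mv := .right) (lδ_clrP_some (b := y[l]) (by
        rw [read_tp hcP]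
        show cl l y l = some y[l]
        unfold cl
        rw [if_neg (by omega), List.getElem?_eq_getElem hlt]))
    rw [cl_update] at hs
    exact RL.cons hs (ih (l + 1) (by omega))

/-- Skipping the prefix of `Z`. -/
theorem skipZ_reach (hcZ : S.cls S.tz = .Z) : ∀ (n h : ℕ), h + n = μZ →
      RL S v (cc S .skipZ hin μP DP hP μZ DZ h o) (n + 1) (cc S .incZ hin μP DP hP μZ DZ μZ o) := by
  intro n
  induction n with
  | zero =>
    intro h hh
    obtain rfl : h = μZ := by omega
    have hs := astep_keep (S := S) (v := v) (q := .skipZ) (q' := .incZ) (hin := hin) (μP := μP) (DP := DP)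
      (hP := hP) (μZ := h) (DZ := DZ) (hZ := h) (o := o)
      (lδ_skipZ_false (by rw [read_tz hcZ]; show decide (h < h) = false; simp))
    exact RL.cons hs (RL.refl _)
  | succ n ih =>
    intro h hh
    have hs := astep_mvZ (S := S) (v := v) (q := .skipZ) (q' := .skipZ) (hin := hin) (μP := μP) (DP := DP)
      (hP := hP) (μZ := μZ) (DZ := DZ) (hZ := h) (o := o) (mv := .right) (ob := none)
      (lδ_skipZ_true (by rw [read_tz hcZ]; show decide (h < μZ) = true; simp; omega))
    simp only [Option.toList, List.append_nil] at hs
    exact RL.cons hs (ih (h + 1) (by omega))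

/-- Incrementing `Z`. -/
theorem incZ_reach (hcZ : S.cls S.tz = .Z) :
    ∀ (y w : Str),
      ∃ hZ' ≤ w.length + y.length, RL S v (cc S .incZ hin μP DP hP μZ (gd (w ++ y)) w.length o) (y.length + 1)
        (cc S .rew hin μP DP hP μZ (gd (w ++ nx y)) hZ' o) := by
  intro y
  induction y with
  | nil =>
    intro w
    have hs := astep_onZ (S := S) (v := v) (q := .incZ) (q' := .rew) (hin := hin) (μP := μP) (DP := DP)
      (hP := hP) (μZ := μZ) (DZ := gd (w ++ [])) (hZ := w.length) (o := o) (d := some false) (mv := .stay)
      (lδ_incZ_none (by rw [read_tz hcZ]; exact (gd_at w []).trans rfl))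
    refine ⟨w.length, by simp, ?_⟩
    refine RL.cons hs ?_
    have e : Function.update (gd (w ++ [])) w.length (some false) = gd (w ++ nx []) := by
      simp only [List.append_nil, nx]
      exact gd_extend w false
    rw [e]
    exact RL.refl _
  | cons b y ih =>
    intro w
    cases b with
    | false =>
      have hs := astep_onZ (S := S) (v := v) (q := .incZ) (q' := .rew) (hin := hin) (μP := μP)
        (DP := DP) (hP := hP) (μZ := μZ) (DZ := gd (w ++ false :: y)) (hZ := w.length) (o := o) (d := some true)
        (mv := .stay) (lδ_incZ_false (by rw [read_tz hcZ]; exact (gd_at w (false :: y)).trans rfl))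
      refine ⟨w.length, by simp, ?_⟩
      rw [gd_update] at hs
      exact (RL.cons hs (RL.refl _)).mono (by simp)
    | true =>
      have hs := astep_onZ (S := S) (v := v) (q := .incZ) (q' := .incZ) (hin := hin) (μP := μP)
        (DP := DP) (hP := hP) (μZ := μZ) (DZ := gd (w ++ true :: y)) (hZ := w.length) (o := o) (d := some false)
        (mv := .right) (lδ_incZ_true (by rw [read_tz hcZ]; exact (gd_at w (true :: y)).trans rfl))
      rw [gd_update] at hs
      obtain ⟨hZ', h1, h2⟩ := ih (w ++ [false])
      refine ⟨hZ', by simp only [List.length_append, List.length_cons, List.length_nil] at h1 ⊢; omega, ?_⟩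
      have e1 : w ++ false :: y = (w ++ [false]) ++ y := by simp
      have e2 : Move.right.apply w.length = (w ++ [false]).length := by simp [Move.apply]
      rw [e1, e2] at hs
      have h3 := RL.cons hs h2
      simpa [nx] using h3

/-- The output. -/
theorem outp_reach (hcZ : S.cls S.tz = .Z) :
    ∀ (y w : Str) (m : ℕ), y.length + 1 ≤ m →
      S.arun v m (cc S .outp hin μP DP hP μZ (gd (w ++ y)) w.length o) = some (some (.inl (o ++ y))) := by
  intro y
  induction y generalizing o with
  | nil =>
    intro w m hm
    obtain ⟨m, rfl⟩ : ∃ m', m = m' + 1 := ⟨m - 1, by omega⟩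
    have hl := lδ_outp_none (S := S)
      (r := fun τ => bT S μP DP μZ (gd (w ++ [])) τ (bH S hP w.length τ)) (ib := v[hin]?)
      (by rw [read_tz hcZ]; exact (gd_at w []).trans rfl)
    unfold arun astep cc
    simp only
    rw [hl]
    simp [aout]
  | cons b y ih =>
    intro w m hm
    obtain ⟨m, rfl⟩ : ∃ m', m = m' + 1 := ⟨m - 1, by omega⟩
    have hs := astep_mvZ (S := S) (v := v) (q := .outp) (q' := .outp) (hin := hin) (μP := μP) (DP := DP)
      (hP := hP) (μZ := μZ) (DZ := gd (w ++ b :: y)) (hZ := w.length) (o := o) (mv := .right) (ob := some b)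
      (lδ_outp_some (by rw [read_tz hcZ]; exact (gd_at w (b :: y)).trans rfl))
    unfold arun
    rw [hs]
    have e1 : w ++ b :: y = (w ++ [b]) ++ y := by simp
    have e2 : Move.right.apply w.length = (w ++ [b]).length := by simp [Move.apply]
    rw [e1, e2]
    simp only
    rw [ih (o := o ++ (some b).toList) (w ++ [b]) m (by simp at hm; omega)]
    simp

end reach

end Spec

end Pool.Agent.ICS
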