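import Pool.Agent.helper10.ICS.Basic

set_option autoImplicit false

/-!
# Two simple machines: hardwiring the first input, finite tables
-/

namespace Pool.Agent.ICS

open scoped Classical

/-- The machine `z ↦ M(q, ε, z)`: it writes `q` on the tape `p`, moves back and starts `M`. -/
noncomputable abbrev hard (M : TM) (q : Str) : TM where
  Q := Fin (2 * q.length + 1) ⊕ M.Q
  Γ := M.Γ
  W := M.W
  finQ := inferInstance
  finΓ := inferInstance
  finW := inferInstance
  start := .inl ⟨0, by omega⟩
  blank := M.blank
  bit := M.bit
  bit_ne := M.bit_ne
  bit_inj := M.bit_inj
  δ := fun s r =>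
    match s with
    | .inl i =>
      if h : i.1 < q.length then .inr (.inl ⟨i.1 + 1, by omega⟩, fun j => match j with
        | .p => (M.bit q[i.1], .right)
        | _ => (r j, .stay))
      else if h' : i.1 < 2 * q.length then .inr (.inl ⟨i.1 + 1, by omega⟩, fun j => match j with
        | .p => (r j, .left)
        | _ => (r j, .stay))
      else .inr (.inr M.start, fun j => (r j, .stay))
    | .inr s =>
      match M.δ s r with
      | .inl a => .inl a
      | .inr (s', f) => .inr (.inr s', f)

/-- The configuration of `hard M q` during the preparation. -/
noncomputable def hc (M : TM) (q z : Str) (i : ℕ) (hi : i < 2 * q.length + 1) : Cfg (hard M q) where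
  state := .inl ⟨i, hi⟩
  tape := fun j => match j with
    | .p => ofStr M (q.take i)
    | .y => ofStr M []
    | .z => ofStr M z
    | _ => ofStr M []
  head := fun j => match j with
    | .p => if i ≤ q.length then i else 2 * q.length - i
    | _ => 0

theorem hard_embed (M : TM) (q : Str) (c : Cfg M) (s : Option Stop) (n : ℕ) :
    ((cstep (hard M q))^[n] ((⟨.inr c.state, c.tape, c.head⟩ : Cfg (hard M q)), s)) =
      ((⟨.inr ((cstep M)^[n] (c, s)).1.state, ((cstep M)^[n] (c, s)).1.tape, ((cstep M)^[n] (c, s)).1.head⟩ :
        Cfg (hard M q)), ((cstep M)^[n] (c, s)).2) := by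
  induction n with
  | zero => rfl
  | succ n ih =>
    rw [Function.iterate_succ_apply', Function.iterate_succ_apply', ih]
    obtain ⟨c', s'⟩ := (cstep M)^[n] (c, s)
    cases s' with
    | some s' => rfl
    | none =>
      simp only [cstep, next]
      cases hd : M.δ c'.state (fun j => c'.tape j (c'.head j)) with
      | inl a => rfl
      | inr x => rfl

theorem hard_write (M : TM) (q z : Str) (i : ℕ) (hi : i < q.length) :
    next (hard M q) (hc M q z i (by omega)) = .inr (hc M q z (i + 1) (by omega)) := by
  unfold next hc
  simp only [hi, dif_pos]
  congr 1
  refine congrArg₂ (fun a b => (⟨Sum.inl ⟨i + 1, by omega⟩, a, b⟩ : Cfg (hard M q))) ?_ ?_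
  · funext j
    cases j with
    | p =>
      simp only
      rw [if_pos (by omega)]
      funext k
      by_cases hk : k = i
      · subst hk
        rw [Function.update_self]
        unfold ofStr
        rw [List.getElem?_take_of_lt (by omega), List.getElem?_eq_getElem hi]
        rfl
      · rw [Function.update_of_ne hk]
        unfold ofStr
        rcases Nat.lt_or_ge k i with h | h
        · rw [List.getElem?_take_of_lt h, List.getElem?_take_of_lt (by omega)]
        · rw [List.getElem?_eq_none (by simp; omega), List.getElem?_eq_none (by simp; omega)]
    | _ => simp only [Function.update_eq_self]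
  · funext j
    cases j with
    | p =>
      simp only
      rw [if_pos (by omega), if_pos (by omega)]
      rfl
    | _ => rfl

theorem hard_back (M : TM) (q z : Str) (i : ℕ) (hi : q.length ≤ i) (hi2 : i < 2 * q.length) :
    next (hard M q) (hc M q z i (by omega)) = .inr (hc M q z (i + 1) (by omega)) := by
  unfold next hc
  simp only [hi2, dif_pos, Nat.not_lt.mpr hi, dif_neg, not_false_iff]
  congr 1
  refine congrArg₂ (fun a b => (⟨Sum.inl ⟨i + 1, by omega⟩, a, b⟩ : Cfg (hard M q))) ?_ ?_
  · funext j
    cases j with
    | p =>
      simp only [Function.update_eq_self]
      rw [List.take_of_length_le hi, List.take_of_length_le (by omega)]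
    | _ => simp only [Function.update_eq_self]
  · funext j
    cases j with
    | p =>
      simp only
      rw [if_neg (by omega : ¬ i + 1 ≤ q.length)]
      by_cases h : i ≤ q.length
      · rw [if_pos h]
        show i - 1 = _
        omega
      · rw [if_neg h]
        show 2 * q.length - i - 1 = _
        omega
    | _ => rfl

theorem hard_start (M : TM) (q z : Str) :
    next (hard M q) (hc M q z (2 * q.length) (by omega)) =
      .inr ⟨.inr (init M q [] z).state, (init M q [] z).tape, (init M q [] z).head⟩ := by
  unfold next hc
  simp only [Nat.lt_irrefl, dif_neg, not_false_iff, show ¬ 2 * q.length < q.length by omega]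
  congr 1
  refine congrArg₂ (fun a b => (⟨Sum.inr M.start, a, b⟩ : Cfg (hard M q))) ?_ ?_
  · funext j
    cases j with
    | p =>
      simp only [Function.update_eq_self]
      rw [List.take_of_length_le (by omega)]
      rfl
    | _ => simp only [Function.update_eq_self]; rfl
  · funext j
    cases j with
    | p =>
      show (if 2 * q.length ≤ q.length then 2 * q.length else 2 * q.length - 2 * q.length) = 0
      split <;> omega
    | _ => rfl

theorem hard_stat (M : TM) (q z : Str) (n : ℕ) :
    stat (hard M q) [] [] z (2 * q.length + 1 + n) = stat M q [] z n := by
  have h : ∀ i (hi : i < 2 * q.length + 1), (cstep (hard M q))^[i] (init (hard M q) [] [] z, none) =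
      (hc M q z i hi, none) := by
    intro i
    induction i with
    | zero =>
      intro hi
      simp only [Function.iterate_zero, id]
      congr 1
      unfold init hc
      congr 1
      · funext j
        cases j <;> rfl
      · funext j
        cases j with
        | p => simp
        | _ => rfl
    | succ i ih =>
      intro hi
      rw [Function.iterate_succ_apply', ih (by omega)]
      have hn : next (hard M q) (hc M q z i (by omega)) = .inr (hc M q z (i + 1) hi) := by
        rcases Nat.lt_or_ge i q.length with h | h
        · exact hard_write M q z i h
        · exact hard_back M q z i h (by omega)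
      simp only [cstep, hn]
  have h2 : (cstep (hard M q))^[2 * q.length + 1] (init (hard M q) [] [] z, none) =
      ((⟨.inr (init M q [] z).state, (init M q [] z).tape, (init M q [] z).head⟩ : Cfg (hard M q)), none) := by
    rw [Function.iterate_succ_apply', h (2 * q.length) (by omega)]
    simp only [cstep, hard_start]
  unfold stat
  rw [Nat.add_comm, Function.iterate_add_apply, h2, hard_embed]

/-- The machine which knows the strings shorter than `n`: it decides `A` on them and halts without output on the
others. -/
noncomputable abbrev table (A : Set Str) (n : ℕ) : TM where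
  Q := {w : Str // w.length ≤ n}
  Γ := Option Bool
  W := Empty
  finQ := (List.finite_length_le Bool n).to_subtype
  finΓ := inferInstance
  finW := inferInstance
  start := ⟨[], by simp⟩
  blank := none
  bit := some
  bit_ne := fun b => by simp
  bit_inj := Option.some_injective _
  δ := fun w r =>
    match r .z with
    | none => .inl (.bit (chi A w.1))
    | some b =>
      if h : w.1.length < n then .inr (⟨w.1 ++ [b], by simp; omega⟩, fun j => match j with
        | .z => (r j, .right)
        | _ => (r j, .stay))
      else .inl .nothing

/-- The configurations of the table machine. -/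
noncomputable def tc (A : Set Str) (n : ℕ) (z : Str) (i : ℕ) (hi : i ≤ n) : Cfg (table A n) where
  state := ⟨z.take i, by simp; omega⟩
  tape := fun j => match j with
    | .z => ofStr (table A n) z
    | _ => ofStr (table A n) []
  head := fun j => match j with
    | .z => i
    | _ => 0

theorem table_read (A : Set Str) (n : ℕ) (z : Str) (i : ℕ) : ofStr (table A n) z i = z[i]? := by
  unfold ofStr
  cases z[i]? <;> rfl

theorem table_next (A : Set Str) (n : ℕ) (z : Str) (i : ℕ) (hi : i < n) (hz : i < z.length) :
    next (table A n) (tc A n z i hi.le) = .inr (tc A n z (i + 1) hi) := by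
  have hr : ofStr (table A n) z i = some z[i] := by rw [table_read, List.getElem?_eq_getElem hz]
  unfold next tc
  simp only [hr]
  have hl : (z.take i).length < n := by simp; omega
  rw [dif_pos hl]
  simp only
  have e1 : z.take i ++ [z[i]] = z.take (i + 1) := List.take_append_getElem hz
  have e2 : (⟨z.take i ++ [z[i]], by simp; omega⟩ : {w : Str // w.length ≤ n}) = ⟨z.take (i + 1), by simp; omega⟩ :=
    Subtype.ext e1
  rw [e2]
  congr 1
  refine congrArg₂ (fun a b => (⟨⟨z.take (i + 1), by simp; omega⟩, a, b⟩ : Cfg (table A n))) ?_ ?_
  · funext j
    cases j <;> simp only [Function.update_eq_self]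
  · funext j
    cases j <;> rfl

theorem table_stat (A : Set Str) (n : ℕ) (z : Str) :
    stat (table A n) [] [] z (n + 1) = some (if z.length ≤ n then .bit (chi A z) else .nothing) := by
  have h : ∀ i (hi : i ≤ n), i ≤ z.length → (cstep (table A n))^[i] (init (table A n) [] [] z, none) =
      (tc A n z i hi, none) := by
    intro i
    induction i with
    | zero =>
      intro hi _
      simp only [Function.iterate_zero, id]
      congr 1
      unfold init tc
      congr 1
      · funext j
        cases j <;> rfl
      · funext j
        cases j <;> rfl
    | succ i ih =>
      intro hi hz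
      rw [Function.iterate_succ_apply', ih (by omega) (by omega)]
      simp only [cstep, table_next A n z i (by omega) (by omega)]
  rcases Nat.lt_or_ge n z.length with hz | hz
  · rw [if_neg (by omega)]
    refine stat_mono _ _ _ _ le_rfl ?_
    unfold stat
    rw [Function.iterate_succ_apply', h n le_rfl (by omega)]
    have hn : next (table A n) (tc A n z n le_rfl) = .inl .nothing := by
      have hr : ofStr (table A n) z n = some z[n] := by rw [table_read, List.getElem?_eq_getElem hz]
      unfold next tc
      simp only [hr]
      rw [dif_neg (by simp; omega)]
    simp only [cstep, hn]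
  · rw [if_pos hz]
    refine stat_mono _ _ _ _ (Nat.succ_le_succ hz) ?_
    unfold stat
    rw [Function.iterate_succ_apply', h z.length hz le_rfl]
    have hn : next (table A n) (tc A n z z.length hz) = .inl (.bit (chi A z)) := by
      have hr : ofStr (table A n) z z.length = none := by rw [table_read, List.getElem?_eq_none le_rfl]
      unfold next tc
      simp only [hr, List.take_length]
    simp only [cstep, hn]

end Pool.Agent.ICS
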