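import Pool.Agent.helper10.ICS.Family
import Pool.Agent.helper10.ICS.Wrap

set_option autoImplicit false

/-!
# Combining finitely many programs to a decision machine
-/

namespace Pool.Agent.ICS

open scoped Classical

/-- The decision machine for a finite set of programs, which knows the strings of length at most `n`. -/
noncomputable abbrev decider (U : TM) (A : Set Str) (P : Finset Str) (n : ℕ) : Spec where
  J := Option {q : Str // q ∈ P}
  finJ := inferInstance
  M := fun j => match j with | some q => hard U q.1 | none => table A n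
  kp := fun _ => .N
  kz := fun _ => .Z
  dep := fun _ => none
  fin := fun st => if ∃ j, st j = none then none else
    if ∃ j, st j = some (.bit true) then some (.inl (.bit true)) else some (.inl (.bit false))
  inZ := true
  cpP := none
  cpZ := some (false, true)
  tp := ⟨none, .p⟩
  tz := ⟨none, .z⟩

theorem decider_run {U : TM} {A : Set Str} {P : Finset Str} {n : ℕ} {hh : ℕ → ℕ}
    (h1 : ∀ q ∈ P, ∀ z, Okay (stat U q [] z (hh z.length)) (chi A z))
    (h2 : ∀ z : Str, n < z.length → ∃ q ∈ P, stat U q [] z (hh z.length) = some (.bit (chi A z))) :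
    ∃ c, ∀ z T, 2 * z.length + hh z.length + c ≤ T →
      run (decider U A P n).tm [] [] z T = some (some (.inr (some (chi A z)))) := by
  set c := P.sup (fun q => 2 * q.length + 1) + (n + 1) with hcdef
  refine ⟨c + 4, fun z T hT => ?_⟩
  have e1 : ∀ (q : {q : Str // q ∈ P}) i, (decider U A P n).fst [] z i (some q) = stat (hard U q.1) [] [] z i :=
    fun q i => Spec.fst_free (S := decider U A P n) (j := some q) rfl [] z i
  have e2 : ∀ i, (decider U A P n).fst [] z i none = stat (table A n) [] [] z i :=
    fun i => Spec.fst_free (S := decider U A P n) (j := none) rfl [] z i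
  -- the status of all members at the end
  have hend : ∀ j : Option {q : Str // q ∈ P}, ∃ s, (decider U A P n).fst [] z (hh z.length + c) j = some s ∧
      (s = .nothing ∨ s = .dontKnow ∨ s = .bit (chi A z)) := by
    intro j
    cases j with
    | none =>
      refine ⟨if z.length ≤ n then .bit (chi A z) else .nothing, ?_, ?_⟩
      · rw [e2]
        exact stat_mono _ _ _ _ (by omega) (table_stat A n z)
      · split
        · exact Or.inr (Or.inr rfl)
        · exact Or.inl rfl
    | some q =>
      have hq : 2 * q.1.length + 1 ≤ P.sup (fun q => 2 * q.length + 1) :=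
        Finset.le_sup (f := fun q : Str => 2 * q.length + 1) q.2
      have h3 := h1 q.1 q.2 z
      rw [← hard_stat U q.1 z (hh z.length)] at h3
      rcases h3 with h3 | h3 | h3
      · exact ⟨_, (e1 q _).trans (stat_mono _ _ _ _ (by omega) h3), Or.inl rfl⟩
      · exact ⟨_, (e1 q _).trans (stat_mono _ _ _ _ (by omega) h3), Or.inr (Or.inl rfl)⟩
      · exact ⟨_, (e1 q _).trans (stat_mono _ _ _ _ (by omega) h3), Or.inr (Or.inr rfl)⟩
  have hbit : ∃ j : Option {q : Str // q ∈ P},
      (decider U A P n).fst [] z (hh z.length + c) j = some (.bit (chi A z)) := by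
    rcases Nat.lt_or_ge n z.length with hz | hz
    · obtain ⟨q, hq, h3⟩ := h2 z hz
      have hq' : 2 * q.length + 1 ≤ P.sup (fun q => 2 * q.length + 1) :=
        Finset.le_sup (f := fun q : Str => 2 * q.length + 1) hq
      rw [← hard_stat U q z (hh z.length)] at h3
      exact ⟨some ⟨q, hq⟩, (e1 ⟨q, hq⟩ _).trans (stat_mono _ _ _ _ (by omega) h3)⟩
    · refine ⟨none, (e2 _).trans (stat_mono _ _ _ _ (by omega : n + 1 ≤ _) ?_)⟩
      rw [table_stat, if_pos hz]
  -- monotonicity of the status
  have hmono : ∀ {i j : ℕ} {m : Option {q : Str // q ∈ P}} {s : Stop}, i ≤ j →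
      (decider U A P n).fst [] z i m = some s → (decider U A P n).fst [] z j m = some s := by
    intro i j m s hij h
    cases m with
    | none => rw [e2] at h ⊢; exact stat_mono _ _ _ _ hij h
    | some q => rw [e1] at h ⊢; exact stat_mono _ _ _ _ hij h
  have hex : ∃ i, ∀ j : Option {q : Str // q ∈ P}, (decider U A P n).fst [] z i j ≠ none :=
    ⟨hh z.length + c, fun j => by obtain ⟨s, hs, _⟩ := hend j; rw [hs]; simp⟩
  have hn1 := Nat.find_spec hex
  have hn2 := fun i => Nat.find_min (H := hex) (m := i)
  have hn3 : Nat.find hex ≤ hh z.length + c :=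
    Nat.find_min' hex (fun j => by obtain ⟨s, hs, _⟩ := hend j; rw [hs]; simp)
  set N := Nat.find hex
  have hfin : ∀ i < N, (decider U A P n).fin ((decider U A P n).fst [] z i) = none := by
    intro i hi
    have := hn2 i hi
    push Not at this
    exact if_pos this
  have hval : ∀ j : Option {q : Str // q ∈ P}, (decider U A P n).fst [] z N j =
      (decider U A P n).fst [] z (hh z.length + c) j := by
    intro j
    obtain ⟨s, hs⟩ := Option.ne_none_iff_exists'.mp (hn1 j)
    rw [hs, hmono hn3 hs]
  have hres : (decider U A P n).fin ((decider U A P n).fst [] z N) = some (.inl (.bit (chi A z))) := by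
    show (if _ then _ else if _ then _ else _) = _
    rw [if_neg (by push Not; exact hn1)]
    by_cases hA : chi A z = true
    · rw [if_pos, hA]
      obtain ⟨j, hj⟩ := hbit
      exact ⟨j, by rw [hval, hj, hA]⟩
    · rw [Bool.not_eq_true] at hA
      rw [if_neg, hA]
      rintro ⟨j, hj⟩
      rw [hval] at hj
      obtain ⟨s, hs, h3⟩ := hend j
      rw [hs] at hj
      obtain rfl := Option.some.inj hj
      rcases h3 with h3 | h3 | h3 <;> simp [hA] at h3
  obtain ⟨a, h4⟩ := Spec.halt_reach (S := decider U A P n) (v := z) (hin := z.length) (μP := 0) (μZ := 0) (o := [])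
    (hP := 0) (hZ := z.length) (N := z.length) (m := T - (z.length + 2)) (by omega) le_rfl hfin hres (by omega)
  have h5 : Spec.AR (decider U A P n) z (Spec.a₀ (decider U A P n)) (z.length + 2)
      (Spec.cc (decider U A P n) .rew z.length 0 (gd []) 0 0 (gd z) z.length []) :=
    Spec.start_reach (S := decider U A P n) (v := z)
  obtain ⟨T', rfl⟩ : ∃ T', T = z.length + 2 + T' := ⟨T - (z.length + 2), by omega⟩
  rw [Spec.run_eq (S := decider U A P n) z [] z rfl, h5]
  rw [Nat.add_sub_cancel_left] at h4
  rw [h4]
  rfl

end Pool.Agent.ICS
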