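import Mathlib

set_option autoImplicit false

/-!
# Multitape Turing machines, instance complexity and time-bounded Kolmogorov complexity
-/

namespace Pool.Agent.ICS

open scoped Classical

/-- Strings over `{0,1}`. -/
abbrev Str := List Bool

/-- Outputs: a string, or one of `0`, `1`, `⊥`; here `Sum.inr (some b)` is the bit `b` and `Sum.inr none` is `⊥`. -/
abbrev Out := Str ⊕ Option Bool

/-- The ways in which a machine can halt: without output, with the string on the output tape, with a bit, with `⊥`. -/
inductive Stop
  | nothing
  | string
  | bit (b : Bool)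
  | dontKnow

/-- Head movements. -/
inductive Move
  | left
  | stay
  | right

/-- The new head position on a one-way infinite tape. -/
def Move.apply : Move → ℕ → ℕ
  | .left, h => h - 1
  | .stay, h => h
  | .right, h => h + 1

/-- The tapes of a machine: three tapes for the inputs `p`, `y`, `z`, an output tape, and the further tapes. -/
inductive Tape (W : Type)
  | p
  | y
  | z
  | out
  | work (w : W)

/-- A deterministic multitape Turing machine with three string inputs: finite sets `Q` of states, `Γ` of symbols and `W`
of further tapes, an initial state, a blank, two symbols for the bits, and the transition function. In each step the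
machine halts, or changes its state, rewrites the scanned symbols and moves its heads, depending on the state and on the
scanned symbols. The tapes are one-way infinite. -/
structure TM where
  Q : Type
  Γ : Type
  W : Type
  finQ : Finite Q
  finΓ : Finite Γ
  finW : Finite W
  start : Q
  blank : Γ
  bit : Bool → Γ
  bit_ne : ∀ b, bit b ≠ blank
  bit_inj : Function.Injective bit
  δ : Q → (Tape W → Γ) → Stop ⊕ (Q × (Tape W → Γ × Move))

/-- Configurations. -/
structure Cfg (M : TM) where
  state : M.Q
  tape : Tape M.W → ℕ → M.Γ
  head : Tape M.W → ℕ

/-- The bit for which a symbol stands, if any. -/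
noncomputable def toBit (M : TM) (a : M.Γ) : Option Bool :=
  if a = M.bit true then some true else if a = M.bit false then some false else none

/-- The bits written to the left of the position `h` of the tape `T`. -/
noncomputable def word (M : TM) (T : ℕ → M.Γ) (h : ℕ) : Str := (List.range h).filterMap (fun i => toBit M (T i))

/-- The tape with content `x`. -/
def ofStr (M : TM) (x : Str) (i : ℕ) : M.Γ := (x[i]?.map M.bit).getD M.blank

/-- The initial configuration on the inputs `p`, `y`, `z`. -/
def init (M : TM) (p y z : Str) : Cfg M where
  state := M.start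
  tape := fun j => match j with
    | .p => ofStr M p
    | .y => ofStr M y
    | .z => ofStr M z
    | _ => ofStr M []
  head := fun _ => 0

/-- One step. -/
def next (M : TM) (c : Cfg M) : Stop ⊕ Cfg M :=
  match M.δ c.state (fun j => c.tape j (c.head j)) with
  | .inl s => .inl s
  | .inr (q, a) => .inr
    { state := q
      tape := fun j => Function.update (c.tape j) (c.head j) (a j).1
      head := fun j => (a j).2.apply (c.head j) }

/-- The output of a machine which halts in the configuration `c`. -/
noncomputable def output (M : TM) (c : Cfg M) : Stop → Option Out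
  | .nothing => none
  | .string => some (.inl (word M (c.tape .out) (c.head .out)))
  | .bit b => some (.inr (some b))
  | .dontKnow => some (.inr none)

/-- `runFrom M n c = none` if `M` does not halt within `n` steps from `c`, and `some o` if it does, with output `o`
(`o = none`: no output). -/
noncomputable def runFrom (M : TM) : ℕ → Cfg M → Option (Option Out)
  | 0, _ => none
  | n + 1, c =>
    match next M c with
    | .inl s => some (output M c s)
    | .inr c' => runFrom M n c'

/-- `run M p y z n`: the result of `n` steps of `M` on the inputs `p`, `y`, `z`. -/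
noncomputable def run (M : TM) (p y z : Str) (n : ℕ) : Option (Option Out) := runFrom M n (init M p y z)

/-- The characteristic function of `A`. -/
noncomputable def chi (A : Set Str) (x : Str) : Bool := decide (x ∈ A)

/-- `z ↦ M(p, ε, z)` is `A`-consistent and halts on every `z` within `t(|z|)` steps. -/
def Consistent (M : TM) (t : ℕ → ℕ) (A : Set Str) (p : Str) : Prop :=
  ∀ z, ∃ o, run M p [] z (t z.length) = some o ∧
    ∀ v, o = some v → v = Sum.inr none ∨ v = Sum.inr (some (chi A z))

/-- The instance complexity `ic_M^t(x : A)`. -/
noncomputable def ic (M : TM) (t : ℕ → ℕ) (A : Set Str) (x : Str) : ℕ∞ :=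
  ⨅ p : {p : Str // Consistent M t A p ∧ run M p [] x (t x.length) = some (some (Sum.inr (some (chi A x))))},
    (p.1.length : ℕ∞)

/-- The time-bounded Kolmogorov complexity `C_M^t(x)`. -/
noncomputable def Cx (M : TM) (t : ℕ → ℕ) (x : Str) : ℕ∞ :=
  ⨅ p : {p : Str // run M p [] [] (t x.length) = some (some (Sum.inl x))}, (p.1.length : ℕ∞)

/-- The time bound `c t(n) log t(n) + c`. -/
noncomputable def slow (c : ℕ) (t : ℕ → ℕ) (n : ℕ) : ℕ := ⌊(c : ℝ) * t n * Real.log (t n) + c⌋₊

/-- `U` is an optimal interpreter. -/
def Optimal (U : TM) : Prop :=
  ∀ M : TM, ∃ c : ℕ, ∀ (A : Set Str) (t : ℕ → ℕ) (x : Str),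
    ic U (slow c t) A x ≤ ic M t A x + c ∧ Cx U (slow c t) x ≤ Cx M t x + c

/-- `t` is time-constructible: `1^t(n)` can be computed from `1^n` in time `O(t(n))`. -/
def Constructible (t : ℕ → ℕ) : Prop :=
  ∃ (M : TM) (K : ℕ), ∀ n, run M [] [] (List.replicate n true) (K * t n + K) =
    some (some (Sum.inl (List.replicate (t n) true)))

/-- `A` is recursive. -/
def Recursive (A : Set Str) : Prop :=
  ∃ M : TM, ∀ z, ∃ n, run M [] [] z n = some (some (Sum.inr (some (chi A z))))

/-- `A` belongs to `DTIME(t)`. -/
def DTime (t : ℕ → ℕ) (A : Set Str) : Prop :=
  ∃ (M : TM) (K : ℕ), ∀ z, run M [] [] z (K * t z.length + K) = some (some (Sum.inr (some (chi A z))))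

/-- The time bound `c 2^n t(n) (n + log t(n)) + c`. -/
noncomputable def bound (c : ℕ) (t : ℕ → ℕ) (n : ℕ) : ℕ := ⌊(c : ℝ) * 2 ^ n * t n * (n + Real.log (t n)) + c⌋₊

end Pool.Agent.ICS
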