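import Pool.Agent.helper10.ICS.Round

set_option autoImplicit false

/-!
# The enumeration of all strings; the family of machines
-/

namespace Pool.Agent.ICS

/-- The number of a string in the order of `nx`. -/
def num : Str → ℕ
  | [] => 0
  | b :: x => 2 * num x + 1 + b.toNat

theorem num_nx : ∀ x, num (nx x) = num x + 1
  | [] => rfl
  | false :: x => by simp [nx, num]
  | true :: x => by
    have := num_nx x
    simp only [nx, num, this, Bool.toNat_false, Bool.toNat_true]
    ring

theorem num_bounds : ∀ x : Str, 2 ^ x.length ≤ num x + 1 ∧ num x + 1 < 2 ^ (x.length + 1)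
  | [] => by simp [num]
  | b :: x => by
    obtain ⟨h1, h2⟩ := num_bounds x
    have hb : b.toNat ≤ 1 := Bool.toNat_le b
    simp only [num, List.length_cons]
    rw [pow_succ 2 x.length, pow_succ 2 (x.length + 1)]
    omega

theorem num_inj : ∀ x y : Str, num x = num y → x = y
  | [], [], _ => rfl
  | [], b :: y, h => by simp only [num] at h; omega
  | b :: x, [], h => by simp only [num] at h; omega
  | b :: x, c :: y, h => by
    have hb : b.toNat ≤ 1 := Bool.toNat_le b
    have hc : c.toNat ≤ 1 := Bool.toNat_le c
    simp only [num] at h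
    have h1 : num x = num y := by omega
    have h2 : b.toNat = c.toNat := by omega
    have h3 : b = c := by cases b <;> cases c <;> simp_all
    rw [num_inj x y h1, h3]

/-- The enumeration of all strings. -/
def en (n : ℕ) : Str := nx^[n] []

theorem en_zero : en 0 = [] := rfl

theorem en_succ (n : ℕ) : en (n + 1) = nx (en n) := Function.iterate_succ_apply' _ _ _

theorem num_en (n : ℕ) : num (en n) = n := by
  induction n with
  | zero => rfl
  | succ n ih => rw [en_succ, num_nx, ih]

theorem en_num (x : Str) : en (num x) = x := num_inj _ _ (num_en _)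

theorem en_length_le (n k : ℕ) : (en n).length ≤ k ↔ n + 1 < 2 ^ (k + 1) := by
  obtain ⟨h1, h2⟩ := num_bounds (en n)
  rw [num_en] at h1 h2
  constructor
  · intro h
    exact lt_of_lt_of_le h2 (Nat.pow_le_pow_right (by norm_num) (by omega))
  · intro h
    by_contra hc
    have : 2 ^ (k + 1) ≤ 2 ^ (en n).length := Nat.pow_le_pow_right (by norm_num) (by omega)
    omega

theorem en_length_mono {n m : ℕ} (h : n ≤ m) : (en n).length ≤ (en m).length :=
  (en_length_le n _).mpr (lt_of_le_of_lt (by omega) ((en_length_le m _).mp le_rfl))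

theorem nx_length (x : Str) : (nx x).length ≤ x.length + 1 := by
  have h1 := num_bounds x
  have h2 := num_bounds (nx x)
  rw [num_nx] at h2
  by_contra hc
  have h3 : 2 ^ (x.length + 2) ≤ 2 ^ (nx x).length := Nat.pow_le_pow_right (by norm_num) (by omega)
  have h4 : 2 ^ (x.length + 1) < 2 ^ (x.length + 2) := Nat.pow_lt_pow_right (by norm_num) (by omega)
  omega

namespace Spec

open scoped Classical

variable {S : Spec}

theorem tick_free {j : S.J} (hj : S.dep j = none) (F : (j : S.J) → PC (S.M j)) (n : ℕ) :
    (S.tick)^[n] F j = (cstep (S.M j))^[n] (F j) := by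
  induction n with
  | zero => rfl
  | succ n ih =>
    rw [Function.iterate_succ_apply', Function.iterate_succ_apply', ← ih]
    set G := (S.tick)^[n] F with hG
    by_cases h : S.active (fun j => (G j).2) j
    · exact tick_active h
    · rw [tick_not h]
      have : (G j).2 ≠ none := by
        intro hc
        exact h ⟨hc, fun j' hj' => by rw [hj] at hj'; simp at hj'⟩
      obtain ⟨s, hs⟩ := Option.ne_none_iff_exists'.mp this
      obtain ⟨c, hc⟩ : ∃ c, G j = (c, some s) := ⟨_, Prod.ext rfl hs⟩
      rw [hc, cstep_halted]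

theorem tick_dep_le {j c : S.J} (hj : S.dep j = some c) (hc : S.dep c = none) (F : (j : S.J) → PC (S.M j)) (n : ℕ)
    (hn : ∀ m < n, ((cstep (S.M c))^[m] (F c)).2 = none) :
    (S.tick)^[n] F j = (cstep (S.M j))^[n] (F j) := by
  induction n with
  | zero => rfl
  | succ n ih =>
    have ih := ih (fun m hm => hn m (by omega))
    rw [Function.iterate_succ_apply', Function.iterate_succ_apply', ← ih]
    have hcn := hn n (by omega)
    rw [← tick_free hc] at hcn
    set G := (S.tick)^[n] F with hG
    by_cases h : S.active (fun j => (G j).2) j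
    · exact tick_active h
    · rw [tick_not h]
      have : (G j).2 ≠ none := by
        intro hc'
        exact h ⟨hc', fun j' hj' => by rw [hj] at hj'; cases hj'; exact hcn⟩
      obtain ⟨s, hs⟩ := Option.ne_none_iff_exists'.mp this
      obtain ⟨c, hc⟩ : ∃ c, G j = (c, some s) := ⟨_, Prod.ext rfl hs⟩
      rw [hc, cstep_halted]

theorem tick_dep_ge {j c : S.J} (hj : S.dep j = some c) (hc : S.dep c = none) (F : (j : S.J) → PC (S.M j)) (h : ℕ)
    (hn : ∀ m < h, ((cstep (S.M c))^[m] (F c)).2 = none) {s : Stop} (hs : ((cstep (S.M c))^[h] (F c)).2 = some s)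
    (n : ℕ) (hhn : h ≤ n) :
    (S.tick)^[n] F j = (cstep (S.M j))^[h] (F j) := by
  induction n, hhn using Nat.le_induction with
  | base => exact tick_dep_le hj hc F h hn
  | succ n hhn ih =>
    rw [Function.iterate_succ_apply', ← ih]
    refine tick_not ?_
    rintro ⟨_, h2⟩
    have : ((S.tick)^[n] F c).2 = none := h2 c hj
    rw [tick_free hc] at this
    have h3 : ((cstep (S.M c))^[n] (F c)).2 = some s := by
      obtain ⟨k, rfl⟩ := Nat.exists_eq_add_of_le hhn
      rw [Nat.add_comm, Function.iterate_add_apply]
      obtain ⟨c', hc'⟩ : ∃ c', (cstep (S.M c))^[h] (F c) = (c', some s) := ⟨_, Prod.ext rfl hs⟩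
      rw [hc', cstep_iterate_halted]
    rw [h3] at this
    simp at this

theorem fst_free {j : S.J} (hj : S.dep j = none) (p z : Str) (n : ℕ) :
    S.fst p z n j = stat (S.M j) (str (S.kp j) p z) [] (str (S.kz j) p z) n := by
  unfold fst
  rw [tick_free hj]
  rfl

theorem fst_dep_ge {j c : S.J} (hj : S.dep j = some c) (hc : S.dep c = none) (p z : Str) (h : ℕ)
    (hn : ∀ m < h, stat (S.M c) (str (S.kp c) p z) [] (str (S.kz c) p z) m = none) {s : Stop}
    (hs : stat (S.M c) (str (S.kp c) p z) [] (str (S.kz c) p z) h = some s) (n : ℕ) (hhn : h ≤ n) :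
    S.fst p z n j = stat (S.M j) (str (S.kp j) p z) [] (str (S.kz j) p z) h := by
  unfold fst
  rw [tick_dep_ge hj hc (F₀ S p z) h hn hs n hhn]
  rfl

end Spec

end Pool.Agent.ICS
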