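import Pool.Agent.helper10.ICS.Basic

set_option autoImplicit false

/-!
# The loop machine

A machine which runs a finite family of machines in parallel, again and again, on inputs which are kept in a separate
layer of the symbols of their tapes.
-/

namespace Pool.Agent.ICS

open scoped Classical

/-- The classes of the tapes of the family: the tapes which hold the string `P`, the string `Z`, the string `1^|Z|`, and
the other ones. -/
inductive Cls
  | P
  | Z
  | O
  | N

/-- Verdicts after a run of the family. -/
inductive Vd
  | pass
  | fail
  | nxt
deriving DecidableEq, Fintype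

/-- The control states. -/
inductive Ct
  | setup
  | copy
  | rew
  | rewO
  | outp
  | incP
  | clrP
  | skipZ
  | incZ
  | swR (v : Vd)
  | swL (v : Vd)
deriving DecidableEq, Fintype

/-- The data of a loop machine. -/
structure Spec where
  J : Type
  finJ : Finite J
  M : J → TM
  kp : J → Cls
  kz : J → Cls
  dep : J → Option J
  fin : (J → Option Stop) → Option (Stop ⊕ Vd)
  inZ : Bool
  cpP : Option (Bool × Bool)
  cpZ : Option (Bool × Bool)
  tp : (j : J) × Tape (M j).W
  tz : (j : J) × Tape (M j).W

attribute [instance] Spec.finJ

/-- The symbols of the loop machine. -/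
structure Sy (S : Spec) where
  flag : Bool
  mark : Bool
  data : Option Bool
  virt : (j : S.J) → Option (S.M j).Γ

instance (W : Type) [Finite W] : Finite (Tape W) := by
  have : Function.Injective (fun t : Tape W => (match t with
    | .p => Sum.inl 0
    | .y => Sum.inl 1
    | .z => Sum.inl 2
    | .out => Sum.inl 3
    | .work w => Sum.inr w : Fin 4 ⊕ W)) := by
    intro a b h
    cases a <;> cases b <;> simp_all
  exact Finite.of_injective _ this

instance (S : Spec) : Finite (Sy S) := by
  have : Function.Injective (fun g : Sy S => (g.flag, g.mark, g.data, g.virt)) := by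
    intro a b h
    cases a
    cases b
    simp only [Prod.mk.injEq] at h
    obtain ⟨rfl, rfl, rfl, rfl⟩ := h
    rfl
  exact Finite.of_injective _ this

instance : Finite Stop := by
  have : Function.Injective (fun t : Stop => (match t with
    | .nothing => 0
    | .string => 1
    | .bit true => 2
    | .bit false => 3
    | .dontKnow => 4 : Fin 5)) := by
    intro a b h
    cases a with
    | bit x => cases b with
      | bit y => cases x <;> cases y <;> simp_all
      | _ => cases x <;> simp_all
    | _ => cases b with
      | bit y => cases y <;> simp_all
      | _ => simp_all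
  exact Finite.of_injective _ this

/-- The work tapes. -/
abbrev WT (S : Spec) := (j : S.J) × Tape (S.M j).W

/-- The states. -/
abbrev LQ (S : Spec) := Ct ⊕ ((j : S.J) → (S.M j).Q ⊕ Stop)

namespace Spec

variable (S : Spec)

/-- The class of a tape. -/
def cls (τ : WT S) : Cls :=
  match τ.2 with
  | .p => S.kp τ.1
  | .z => S.kz τ.1
  | _ => .N

/-- What is written on a tape of a given class during the copying of the input. -/
def cp (k : Cls) : Option (Bool × Bool) :=
  match k with
  | .P => S.cpP
  | .Z => S.cpZ
  | .O => S.cpZ
  | .N => none

/-- The blank. -/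
def bl : Sy S := ⟨false, false, none, fun _ => none⟩

/-- The symbol of a bit. -/
def bt (b : Bool) : Sy S := ⟨false, false, some b, fun _ => none⟩

/-- The symbol of the machine `j` represented by a symbol on the tape `τ`. -/
def dec (τ : WT S) (g : Sy S) : (S.M τ.1).Γ :=
  match g.virt τ.1 with
  | some a => a
  | none =>
    match g.data with
    | none => (S.M τ.1).blank
    | some b => (S.M τ.1).bit (match S.cls τ with | .O => true | _ => b)

/-- Is the machine `j` active? -/
def active (st : (j : S.J) → Option Stop) (j : S.J) : Prop :=
  st j = none ∧ ∀ j', S.dep j = some j' → st j' = none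

/-- Apply the operation `f` on the tapes of class `P`. -/
def onP (r : WT S → Sy S) (f : Sy S → Sy S × Move) (τ : WT S) : Sy S × Move :=
  match S.cls τ with
  | .P => f (r τ)
  | _ => (r τ, .stay)

/-- Apply the operation `f` on the tapes of the classes `Z` and `O`. -/
def onZ (r : WT S → Sy S) (f : Sy S → Sy S × Move) (τ : WT S) : Sy S × Move :=
  match S.cls τ with
  | .Z => f (r τ)
  | .O => f (r τ)
  | _ => (r τ, .stay)

/-- Change nothing. -/
def keep (r : WT S → Sy S) (τ : WT S) : Sy S × Move := (r τ, .stay)

/-- The control state after the cleaning. -/
def after : Vd → Ct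
  | .pass => .incP
  | .fail => .clrP
  | .nxt => .skipZ

/-- The new state of the machine `j` and the operations on its tapes. -/
noncomputable def comp (st : (j : S.J) → (S.M j).Q ⊕ Stop) (r : WT S → Sy S) (j : S.J) :
    ((S.M j).Q ⊕ Stop) × (Tape (S.M j).W → Sy S × Move) :=
  match st j with
  | .inr s => (.inr s, fun t => (r ⟨j, t⟩, .stay))
  | .inl q =>
    if S.active (fun j => (st j).getRight?) j then
      match (S.M j).δ q (fun t => S.dec ⟨j, t⟩ (r ⟨j, t⟩)) with
      | .inl s => (.inr s, fun t => (r ⟨j, t⟩, .stay))
      | .inr (q', a) => (.inl q', fun t =>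
        ({ r ⟨j, t⟩ with virt := Function.update (r ⟨j, t⟩).virt j (some (a t).1) }, (a t).2))
    else (.inl q, fun t => (r ⟨j, t⟩, .stay))

/-- The transition function, in terms of the symbols on the work tapes and of the scanned bit of the input. -/
noncomputable def lδ (q : LQ S) (r : WT S → Sy S) (ib : Option Bool) :
    Stop ⊕ (LQ S × (WT S → Sy S × Move) × Bool × Option Bool) :=
  match q with
  | .inl .setup => .inr (.inl .copy, fun τ => ({ r τ with flag := true }, .stay), false, none)
  | .inl .copy =>
    match ib with
    | some b => .inr (.inl .copy, fun τ =>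
      (match S.cp (S.cls τ) with
      | some (m, d) => ({ r τ with mark := m, data := if d then some b else none }, .right)
      | none => (r τ, .stay)), true, none)
    | none => .inr (.inl .rew, S.keep r, false, none)
  | .inl .rew =>
    if ∀ τ, (r τ).flag = true then .inr (.inr fun j => .inl (S.M j).start, S.keep r, false, none)
    else .inr (.inl .rew, fun τ => (r τ, if (r τ).flag = true then .stay else .left), false, none)
  | .inl .rewO =>
    if ∀ τ, (r τ).flag = true then .inr (.inl .outp, S.keep r, false, none)
    else .inr (.inl .rewO, fun τ => (r τ, if (r τ).flag = true then .stay else .left), false, none)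
  | .inl (.swR v) =>
    if ∀ τ, (r τ).virt τ.1 = none then .inr (.inl (.swL v), S.keep r, false, none)
    else .inr (.inl (.swR v), fun τ => (r τ, if (r τ).virt τ.1 = none then .stay else .right), false, none)
  | .inl (.swL v) =>
    if ∀ τ, (r τ).flag = true then
      .inr (.inl (after v), fun τ => ({ r τ with virt := fun _ => none }, .stay), false, none)
    else .inr (.inl (.swL v), fun τ =>
      ({ r τ with virt := fun _ => none }, if (r τ).flag = true then .stay else .left), false, none)
  | .inl .incP =>
    match (r S.tp).data with
    | some true => .inr (.inl .incP, S.onP r (fun g => ({ g with data := some false }, .right)), false, none)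
    | some false => .inr (.inl .rew, S.onP r (fun g => ({ g with data := some true }, .stay)), false, none)
    | none =>
      if (r S.tp).mark = true then
        .inr (.inl .rew, S.onP r (fun g => ({ g with data := some false }, .stay)), false, none)
      else .inr (.inl .rewO, S.keep r, false, none)
  | .inl .clrP =>
    match (r S.tp).data with
    | some _ => .inr (.inl .clrP, S.onP r (fun g => ({ g with data := none }, .right)), false, none)
    | none => .inr (.inl .skipZ, S.keep r, false, none)
  | .inl .skipZ =>
    if (r S.tz).mark = true then .inr (.inl .skipZ, S.onZ r (fun g => (g, .right)), false, none)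
    else .inr (.inl .incZ, S.keep r, false, none)
  | .inl .incZ =>
    match (r S.tz).data with
    | some true => .inr (.inl .incZ, S.onZ r (fun g => ({ g with data := some false }, .right)), false, none)
    | some false => .inr (.inl .rew, S.onZ r (fun g => ({ g with data := some true }, .stay)), false, none)
    | none => .inr (.inl .rew, S.onZ r (fun g => ({ g with data := some false }, .stay)), false, none)
  | .inl .outp =>
    match (r S.tz).data with
    | some b => .inr (.inl .outp, S.onZ r (fun g => (g, .right)), false, some b)
    | none => .inl .string
  | .inr st =>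
    match S.fin (fun j => (st j).getRight?) with
    | some (.inl s) => .inl s
    | some (.inr v) => .inr (.inl (.swR v), S.keep r, false, none)
    | none => .inr (.inr fun j => (S.comp st r j).1, fun τ => (S.comp st r τ.1).2 τ.2, false, none)

/-- The operations on all tapes. -/
def ext (r : Tape (WT S) → Sy S) (f : WT S → Sy S × Move) (mv : Bool) (ob : Option Bool) :
    Tape (WT S) → Sy S × Move
  | .work τ => f τ
  | .out => (match ob with | some b => (S.bt b, .right) | none => (r .out, .stay))
  | .p => (r .p, if mv && !S.inZ then .right else .stay)
  | .z => (r .z, if mv && S.inZ then .right else .stay)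
  | .y => (r .y, .stay)

/-- The loop machine. -/
noncomputable abbrev tm : TM where
  Q := LQ S
  Γ := Sy S
  W := WT S
  finQ := inferInstance
  finΓ := inferInstance
  finW := inferInstance
  start := .inl .setup
  blank := S.bl
  bit := S.bt
  bit_ne := fun b h => by simpa [bl, bt] using congrArg Sy.data h
  bit_inj := fun a b h => by simpa [bt] using congrArg Sy.data h
  δ := fun q r =>
    match S.lδ q (fun τ => r (.work τ)) (if S.inZ then (r .z).data else (r .p).data) with
    | .inl s => .inl s
    | .inr (q', f, mv, ob) => .inr (q', S.ext r f mv ob)

/-- Abstract configurations of the loop machine. -/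
structure AC where
  q : LQ S
  hin : ℕ
  T : WT S → ℕ → Sy S
  h : WT S → ℕ
  o : Str

/-- An abstract step; `v` is the input. -/
noncomputable def astep (v : Str) (a : AC S) : Stop ⊕ AC S :=
  match S.lδ a.q (fun τ => a.T τ (a.h τ)) (v[a.hin]?) with
  | .inl s => .inl s
  | .inr (q', f, mv, ob) => .inr
    { q := q'
      hin := if mv then a.hin + 1 else a.hin
      T := fun τ => Function.update (a.T τ) (a.h τ) (f τ).1
      h := fun τ => (f τ).2.apply (a.h τ)
      o := a.o ++ ob.toList }

/-- The output of an abstract configuration. -/
def aout (a : AC S) : Stop → Option Out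
  | .nothing => none
  | .string => some (.inl a.o)
  | .bit b => some (.inr (some b))
  | .dontKnow => some (.inr none)

/-- Abstract runs. -/
noncomputable def arun (v : Str) : ℕ → AC S → Option (Option Out)
  | 0, _ => none
  | n + 1, a =>
    match S.astep v a with
    | .inl s => some (S.aout a s)
    | .inr a' => arun v n a'

/-- The configuration `c` is represented by `a`. -/
structure Sim (v : Str) (c : Cfg S.tm) (a : AC S) : Prop where
  state : c.state = a.q
  inp : c.tape (if S.inZ then .z else .p) = ofStr S.tm v
  pos : c.head (if S.inZ then .z else .p) = a.hin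
  tape : ∀ τ, c.tape (.work τ) = a.T τ
  head : ∀ τ, c.head (.work τ) = a.h τ
  out : word S.tm (c.tape .out) (c.head .out) = a.o

variable {S}

theorem word_succ (M : TM) (T : ℕ → M.Γ) (h : ℕ) : word M T (h + 1) = word M T h ++ (toBit M (T h)).toList := by
  unfold word
  rw [List.range_succ, List.filterMap_append]
  congr 1

theorem word_update (M : TM) (T : ℕ → M.Γ) (h : ℕ) (a : M.Γ) : word M (Function.update T h a) h = word M T h := by
  unfold word
  refine List.filterMap_congr fun i hi => ?_
  rw [List.mem_range] at hi
  rw [Function.update_of_ne (by omega)]

theorem toBit_bit (M : TM) (b : Bool) : toBit M (M.bit b) = some b := by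
  unfold toBit
  cases b
  · have : M.bit false ≠ M.bit true := fun h => by simpa using M.bit_inj h
    simp [this]
  · simp

theorem word_write (M : TM) (T : ℕ → M.Γ) (h : ℕ) (b : Bool) :
    word M (Function.update T h (M.bit b)) (h + 1) = word M T h ++ [b] := by
  rw [word_succ, word_update, Function.update_self, toBit_bit]
  rfl

theorem data_ofStr (v : Str) (i : ℕ) : (ofStr S.tm v i : Sy S).data = v[i]? := by
  unfold ofStr
  cases h : v[i]? with
  | none => rfl
  | some b => rfl

theorem ext_inp (r : Tape (WT S) → Sy S) (f : WT S → Sy S × Move) (mv : Bool) (ob : Option Bool) :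
    S.ext r f mv ob (if S.inZ then .z else .p) =
      (r (if S.inZ then .z else .p), if mv then .right else .stay) := by
  cases hz : S.inZ <;> cases mv <;> simp [ext, hz]

theorem Sim.next {v : Str} {c : Cfg S.tm} {a : AC S} (h : Sim S v c a) :
    match S.astep v a with
    | .inl s => ICS.next S.tm c = .inl s
    | .inr a' => ∃ c', ICS.next S.tm c = .inr c' ∧ Sim S v c' a' := by
  have hr : (fun τ => (fun j => c.tape j (c.head j)) (Tape.work τ)) = fun τ => a.T τ (a.h τ) := by
    funext τ
    show c.tape (.work τ) (c.head (.work τ)) = _
    rw [h.tape, h.head]
  have hib : (if S.inZ then (c.tape .z (c.head .z) : Sy S).data else (c.tape .p (c.head .p) : Sy S).data) =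
      v[a.hin]? := by
    have h1 := h.inp
    have h2 := h.pos
    cases hz : S.inZ with
    | true =>
      rw [hz] at h1 h2
      simp only [if_true] at h1 h2 ⊢
      rw [h1, h2, data_ofStr]
    | false =>
      rw [hz] at h1 h2
      simp only [Bool.false_eq_true, if_false] at h1 h2 ⊢
      rw [h1, h2, data_ofStr]
  have hδ : S.tm.δ c.state (fun j => c.tape j (c.head j)) =
      match S.lδ a.q (fun τ => a.T τ (a.h τ)) (v[a.hin]?) with
      | .inl s => .inl s
      | .inr (q', f, mv, ob) => .inr (q', S.ext (fun j => c.tape j (c.head j)) f mv ob) := by
    rw [h.state]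
    show (match S.lδ a.q (fun τ => (fun j => c.tape j (c.head j)) (Tape.work τ))
      (if S.inZ then (c.tape .z (c.head .z) : Sy S).data else (c.tape .p (c.head .p) : Sy S).data) with
      | .inl s => Sum.inl s
      | .inr (q', f, mv, ob) => .inr (q', S.ext (fun j => c.tape j (c.head j)) f mv ob)) = _
    rw [hr, hib]
  unfold astep ICS.next
  rw [hδ]
  cases hl : S.lδ a.q (fun τ => a.T τ (a.h τ)) (v[a.hin]?) with
  | inl s => rfl
  | inr x =>
    obtain ⟨q', f, mv, ob⟩ := x
    refine ⟨_, rfl, rfl, ?_, ?_, ?_, ?_, ?_⟩
    · show Function.update (c.tape (if S.inZ then .z else .p)) (c.head (if S.inZ then .z else .p))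
        (S.ext (fun j => c.tape j (c.head j)) f mv ob (if S.inZ then .z else .p)).1 = _
      rw [ext_inp]
      simp only [Function.update_eq_self]
      exact h.inp
    · show Move.apply (S.ext (fun j => c.tape j (c.head j)) f mv ob (if S.inZ then .z else .p)).2
        (c.head (if S.inZ then .z else .p)) = _
      rw [ext_inp, h.pos]
      cases mv <;> rfl
    · intro τ
      show Function.update (c.tape (.work τ)) (c.head (.work τ)) (f τ).1 = _
      rw [h.tape, h.head]
    · intro τ
      show Move.apply (f τ).2 (c.head (.work τ)) = _
      rw [h.head]
    · cases ob with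
      | none =>
        show word S.tm (Function.update (c.tape .out) (c.head .out) (c.tape .out (c.head .out))) (c.head .out) = _
        rw [Function.update_eq_self, h.out]
        simp
      | some b =>
        show word S.tm (Function.update (c.tape .out) (c.head .out) (S.bt b)) (c.head .out + 1) = _
        have := word_write S.tm (c.tape .out) (c.head .out) b
        rw [h.out] at this
        exact this

theorem Sim.run {v : Str} : ∀ (n : ℕ) (c : Cfg S.tm) (a : AC S), Sim S v c a → runFrom S.tm n c = S.arun v n a := by
  intro n
  induction n with
  | zero => intro c a _; rfl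
  | succ n ih =>
    intro c a h
    have hn := h.next
    unfold runFrom arun
    cases hs : S.astep v a with
    | inl s =>
      rw [hs] at hn
      simp only at hn
      rw [hn]
      simp only
      congr 1
      cases s with
      | string => show some (Sum.inl _) = some (Sum.inl _); rw [h.out]
      | nothing => rfl
      | bit b => rfl
      | dontKnow => rfl
    | inr a' =>
      rw [hs] at hn
      simp only at hn
      obtain ⟨c', h1, h2⟩ := hn
      rw [h1]
      exact ih c' a' h2

/-- The initial abstract configuration. -/
def a₀ (S : Spec) : AC S := ⟨.inl .setup, 0, fun _ _ => S.bl, fun _ => 0, []⟩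

theorem sim_init (v p z : Str) (h : v = if S.inZ then z else p) : Sim S v (init S.tm p [] z) (a₀ S) where
  state := rfl
  inp := by cases hz : S.inZ <;> rw [h, hz] <;> rfl
  pos := rfl
  tape := fun τ => by
    funext i
    show ofStr S.tm [] i = S.bl
    simp [ofStr, tm]
  head := fun τ => rfl
  out := rfl

theorem run_eq (v p z : Str) (h : v = if S.inZ then z else p) (n : ℕ) :
    run S.tm p [] z n = S.arun v n (a₀ S) := Sim.run n _ _ (sim_init v p z h)

end Spec

end Pool.Agent.ICS
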