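import Pool.Agent.helper10.ICS.Refute
import Pool.Agent.helper10.ICS.Decide

set_option autoImplicit false

/-!
# The main theorem
-/

namespace Pool.Agent.ICS

open scoped Classical

theorem okay_mono {M : TM} {p z : Str} {n m : ℕ} {b : Bool} (hnm : n ≤ m) (h : Okay (stat M p [] z n) b) :
    Okay (stat M p [] z m) b := by
  rcases h with h | h | h
  · exact Or.inl (stat_mono _ _ _ _ hnm h)
  · exact Or.inr (Or.inl (stat_mono _ _ _ _ hnm h))
  · exact Or.inr (Or.inr (stat_mono _ _ _ _ hnm h))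

/-- The clock of a time-constructible function. -/
theorem exists_clock {t : ℕ → ℕ} (ht : Constructible t) :
    ∃ (C : TM) (hh : ℕ → ℕ) (K : ℕ), IsClock C hh ∧ ∀ n, t n ≤ hh n ∧ hh n ≤ K * t n + K := by
  obtain ⟨C, K, hC⟩ := ht
  have h0 : ∀ n, ∃ s, stat C [] [] (List.replicate n true) (K * t n + K) = some s :=
    fun n => (run_isSome_iff C [] [] _ _).mp ⟨_, hC n⟩
  refine ⟨C, fun n => htime C [] [] (List.replicate n true), K, ?_, ?_⟩
  · intro n
    obtain ⟨h1, _, h3⟩ := htime_spec C [] [] (List.replicate n true) (h0 n)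
    exact ⟨h3, h1⟩
  · intro n
    obtain ⟨h1, h2, _⟩ := htime_spec C [] [] (List.replicate n true) (h0 n)
    refine ⟨?_, h2⟩
    obtain ⟨o, ho⟩ := (run_isSome_iff C [] [] _ _).mpr h1
    have h4 := run_unique C [] [] _ ho (hC n)
    subst h4
    simpa using length_le_of_run C [] [] _ _ _ ho

section

variable {U C D : TM} {hh t : ℕ → ℕ} {A : Set Str} {K K₀ : ℕ}

/-- If the search never succeeds, then `A` can be decided in time `O(t)`. -/
theorem exists_good (hC : IsClock C hh) (hD : Decides D A) (hK : ∀ n, t n ≤ hh n ∧ hh n ≤ K * t n + K)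
    (hK₀ : ∀ n, n ≤ K₀ * t n + K₀) (hA : ¬ DTime t A) (k : ℕ) :
    ∃ (v : Str) (m : ℕ), v.length = k ∧ Good U (refuter U C D).tm hh k (v ++ en m) := by
  by_contra hno
  push Not at hno
  apply hA
  have hfin : {q : Str | q.length ≤ k}.Finite := List.finite_length_le Bool k
  set L : Finset Str := hfin.toFinset with hL
  have hmem : ∀ q : Str, q ∈ L ↔ q.length ≤ k := fun q => by rw [hL, Set.Finite.mem_toFinset]; rfl
  set P : Finset Str := L.filter (fun q => ∀ z, Okay (stat U q [] z (hh z.length)) (chi A z)) with hP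
  -- all inconsistent programs are refuted within `n₁` steps
  have href : ∀ q : Str, ∃ n, (¬ ∀ z, Okay (stat U q [] z (hh z.length)) (chi A z)) →
      ∃ s, stat (refuter U C D).tm q [] [] n = some s := by
    intro q
    by_cases hq : ∀ z, Okay (stat U q [] z (hh z.length)) (chi A z)
    · exact ⟨0, fun h => absurd hq h⟩
    · obtain ⟨n, s, h⟩ := refuter_some (U := U) hC hD hq
      exact ⟨n, fun _ => ⟨s, h⟩⟩
  choose f hf using href
  set n₁ := L.sup f with hn₁
  have hlast : ∀ z : Str, max k (K₀ * n₁ + K₀) < z.length →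
      ∃ q ∈ P, stat U q [] z (hh z.length) = some (.bit (chi A z)) := by
    intro z hz
    have hz1 : k < z.length := lt_of_le_of_lt (le_max_left _ _) hz
    have hz2 : K₀ * n₁ + K₀ < z.length := lt_of_le_of_lt (le_max_right _ _) hz
    have h1 := hno (z.take k) (num (z.drop k)) (by simp; omega)
    rw [en_num, List.take_append_drop] at h1
    unfold Good at h1
    push Not at h1
    obtain ⟨q, hq, hb1, b, hb2⟩ := h1
    have hn : n₁ ≤ hh z.length := by
      by_contra hc
      have h3 := hK₀ z.length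
      have h4 := (hK z.length).1
      have h5 : K₀ * t z.length ≤ K₀ * n₁ := Nat.mul_le_mul_left _ (by omega)
      omega
    have hok : ∀ z, Okay (stat U q [] z (hh z.length)) (chi A z) := by
      by_contra hc
      obtain ⟨s, hs⟩ := hf q hc
      have h3 : f q ≤ n₁ := Finset.le_sup (f := f) ((hmem q).mpr hq)
      rw [stat_mono _ _ _ _ (h3.trans hn) hs] at hb1
      simp at hb1
    refine ⟨q, ?_, ?_⟩
    · rw [hP, Finset.mem_filter]
      exact ⟨(hmem q).mpr hq, hok⟩
    · have h6 := hok z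
      rw [hb2] at h6 ⊢
      rcases h6 with h6 | h6 | h6
      · simp at h6
      · simp at h6
      · exact h6
  obtain ⟨c, hc⟩ := decider_run (U := U) (A := A) (P := P) (n := max k (K₀ * n₁ + K₀)) (hh := hh)
    (fun q hq => (Finset.mem_filter.mp hq).2) hlast
  refine ⟨(decider U A P (max k (K₀ * n₁ + K₀))).tm, 2 * K₀ + K + c, fun z => hc z _ ?_⟩
  have h1 := hK₀ z.length
  have h2 := (hK z.length).2
  have h3 : (2 * K₀ + K + c) * t z.length + (2 * K₀ + K + c) =
      2 * (K₀ * t z.length + K₀) + (K * t z.length + K) + (c * t z.length + c) := by ring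
  rw [h3]
  omega

theorem good_ic (hC : IsClock C hh) (hD : Decides D A) (hK : ∀ n, t n ≤ hh n) {k : ℕ} {x : Str}
    (hg : Good U (refuter U C D).tm hh k x) : (k : ℕ∞) < ic U t A x := by
  refine lt_of_lt_of_le (b := ((k + 1 : ℕ) : ℕ∞)) (by exact_mod_cast Nat.lt_succ_self k) ?_
  refine le_iInf fun ⟨p, hp1, hp2⟩ => ?_
  simp only [Nat.cast_le]
  by_contra hc
  refine hg p (by omega) ⟨?_, chi A x, ?_⟩
  · refine refuter_none hC hD (fun z => ?_) _
    exact okay_mono (hK z.length) ((consistent_iff U t A p).mp hp1 z)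
  · rw [run_bit_iff] at hp2
    exact stat_mono _ _ _ _ (hK x.length) hp2

end

/-- The theorem for one machine `M` in place of the optimal interpreter. -/
theorem machine_level {t : ℕ → ℕ} (htm : Monotone t) (ht : Constructible t) (hn : ∃ K, ∀ n, n ≤ K * t n + K)
    {A : Set Str} (hA : Recursive A) (hA' : ¬ DTime t A) (U : TM) :
    ∃ (M : TM) (K : ℕ), ∀ k : ℕ, ∃ x : Str, k ≤ x.length ∧ (k : ℕ∞) < ic U t A x ∧
      Cx M (fun n => K * 2 ^ n * t n + K) x ≤ k := by
  obtain ⟨D, hD⟩ := hA
  obtain ⟨C, hh, K, hC, hK⟩ := exists_clock ht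
  obtain ⟨K₀, hK₀⟩ := hn
  set K₂ := 4 * K₀ + 3 * K + 7 with hK₂
  refine ⟨(search U C (refuter U C D).tm).tm, (8 * K₂ + 1) * 2 ^ (K₀ + 1), fun k => ?_⟩
  obtain ⟨v, m', hv, hg'⟩ := exists_good (U := U) hC hD hK hK₀ hA' k
  subst hv
  have hex : ∃ m, Good U (refuter U C D).tm hh v.length (v ++ en m) := ⟨m', hg'⟩
  have hg := Nat.find_spec hex
  have hg2 := fun j => Nat.find_min (H := hex) (m := j)
  set m := Nat.find hex
  refine ⟨v ++ en m, by simp, good_ic hC hD (fun n => (hK n).1) hg, ?_⟩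
  have hlen : (v ++ en m).length = v.length + (en m).length := List.length_append
  have hrun : run (search U C (refuter U C D).tm).tm v [] []
      ((8 * K₂ + 1) * 2 ^ (K₀ + 1) * 2 ^ (v ++ en m).length * t (v ++ en m).length + (8 * K₂ + 1) * 2 ^ (K₀ + 1)) =
      some (some (.inl (v ++ en m))) := by
    refine search_run (B := K₂ * (t (v ++ en m).length + 1)) hC (fun j hj => hg2 j hj) hg ?_ ?_
    · intro j hj
      have h1 := en_length_mono hj
      have h2 := (hK (v.length + (en j).length)).2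
      have h3 : t (v.length + (en j).length) ≤ t (v ++ en m).length := htm (by omega)
      have h4 := hK₀ (v ++ en m).length
      have h5 : K * t (v.length + (en j).length) ≤ K * t (v ++ en m).length := Nat.mul_le_mul_left _ h3
      have h6 : K₂ * (t (v ++ en m).length + 1) = 4 * (K₀ * t (v ++ en m).length + K₀) +
        3 * (K * t (v ++ en m).length + K) + 7 * t (v ++ en m).length + 7 := by rw [hK₂]; ring
      rw [h6]
      omega
    · rw [← hlen]
      set n := (v ++ en m).length with hnn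
      have h1 : v.length + 2 ≤ 2 ^ n * 2 := by
        have : n < 2 ^ n := Nat.lt_two_pow_self
        omega
      have h4 := hK₀ n
      rcases Nat.eq_zero_or_pos (t n) with h0 | h0
      · rw [h0] at h4 ⊢
        have h5 : 2 ^ n ≤ 2 ^ K₀ := Nat.pow_le_pow_right (by norm_num) (by omega)
        calc v.length + 2 + 4 * 2 ^ n * (K₂ * (0 + 1)) ≤ 2 ^ n * 2 + 4 * 2 ^ n * (K₂ * (0 + 1)) := by omega
          _ = (4 * K₂ + 2) * 2 ^ n := by ring
          _ ≤ (4 * K₂ + 2) * 2 ^ K₀ := Nat.mul_le_mul_left _ h5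
          _ ≤ (8 * K₂ + 1) * 2 ^ (K₀ + 1) := by
            rw [pow_succ]
            have : (4 * K₂ + 2) * 2 ^ K₀ ≤ ((8 * K₂ + 1) * 2) * 2 ^ K₀ := Nat.mul_le_mul_right _ (by omega)
            calc _ ≤ _ := this
              _ = _ := by ring
          _ ≤ _ := Nat.le_add_left _ _
      · have h6 : 4 * 2 ^ n * (K₂ * (t n + 1)) ≤ 8 * K₂ * (2 ^ n * t n) := by
          have : t n + 1 ≤ 2 * t n := by omega
          calc 4 * 2 ^ n * (K₂ * (t n + 1)) ≤ 4 * 2 ^ n * (K₂ * (2 * t n)) := by gcongr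
            _ = _ := by ring
        have h7 : v.length + 2 ≤ 2 * (2 ^ n * t n) := by
          calc v.length + 2 ≤ 2 ^ n * 2 := h1
            _ = 2 * (2 ^ n * 1) := by ring
            _ ≤ 2 * (2 ^ n * t n) := by gcongr; omega
        calc v.length + 2 + 4 * 2 ^ n * (K₂ * (t n + 1)) ≤ (8 * K₂ + 2) * (2 ^ n * t n) := by
              have : (8 * K₂ + 2) * (2 ^ n * t n) = 8 * K₂ * (2 ^ n * t n) + 2 * (2 ^ n * t n) := by ring
              omega
          _ ≤ ((8 * K₂ + 1) * 2 ^ (K₀ + 1)) * (2 ^ n * t n) := by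
            refine Nat.mul_le_mul_right _ ?_
            have : 2 ≤ 2 ^ (K₀ + 1) := by
              calc 2 = 2 ^ 1 := rfl
                _ ≤ _ := Nat.pow_le_pow_right (by norm_num) (by omega)
            nlinarith
          _ = (8 * K₂ + 1) * 2 ^ (K₀ + 1) * 2 ^ n * t n := by ring
          _ ≤ _ := Nat.le_add_right _ _
  exact iInf_le_of_le ⟨v, hrun⟩ le_rfl

end Pool.Agent.ICS
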