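import Pool.Agent.helper10.ICS.Loop

set_option autoImplicit false

/-!
# Reachability and sweeps of the loop machine
-/

namespace Pool.Agent.ICS

namespace Spec

open scoped Classical

variable {S : Spec} {v : Str}

/-- From `a` the machine reaches `a'` in `n` steps. -/
def AR (S : Spec) (v : Str) (a : AC S) (n : ℕ) (a' : AC S) : Prop := ∀ m, S.arun v (n + m) a = S.arun v m a'

theorem AR.refl (a : AC S) : AR S v a 0 a := fun m => by rw [Nat.zero_add]

theorem AR.trans {a b c : AC S} {n m : ℕ} (h : AR S v a n b) (h' : AR S v b m c) : AR S v a (n + m) c := by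
  intro l
  rw [Nat.add_assoc, h, h']

theorem AR.one {a b : AC S} (h : S.astep v a = .inr b) : AR S v a 1 b := by
  intro m
  rw [Nat.add_comm, arun, h]

theorem AR.cons {a b c : AC S} {n : ℕ} (h : S.astep v a = .inr b) (h' : AR S v b n c) : AR S v a (n + 1) c := by
  have := (AR.one h).trans h'
  rwa [Nat.add_comm] at this

/-- Reachability within `N` steps. -/
def RL (S : Spec) (v : Str) (a : AC S) (N : ℕ) (a' : AC S) : Prop := ∃ n ≤ N, AR S v a n a'

theorem RL.trans {a b c : AC S} {n m : ℕ} (h : RL S v a n b) (h' : RL S v b m c) : RL S v a (n + m) c := by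
  obtain ⟨n', h1, h2⟩ := h
  obtain ⟨m', h3, h4⟩ := h'
  exact ⟨n' + m', by omega, h2.trans h4⟩

theorem RL.mono {a b : AC S} {n m : ℕ} (h : RL S v a n b) (hnm : n ≤ m) : RL S v a m b := by
  obtain ⟨n', h1, h2⟩ := h
  exact ⟨n', by omega, h2⟩

theorem RL.cons {a b c : AC S} {n : ℕ} (h : S.astep v a = .inr b) (h' : RL S v b n c) : RL S v a (n + 1) c := by
  obtain ⟨n', h1, h2⟩ := h'
  exact ⟨n' + 1, by omega, AR.cons h h2⟩

theorem RL.refl (a : AC S) : RL S v a 0 a := ⟨0, le_rfl, AR.refl a⟩

theorem arun_mono : ∀ (n m : ℕ) (a : AC S) (o : Option Out), n ≤ m → S.arun v n a = some o → S.arun v m a = some o := by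
  intro n
  induction n with
  | zero => intro m a o _ h; simp [arun] at h
  | succ n ih =>
    intro m a o hm h
    obtain ⟨m, rfl⟩ : ∃ m', m = m' + 1 := ⟨m - 1, by omega⟩
    unfold arun at h ⊢
    cases hs : S.astep v a with
    | inl s => rw [hs] at h; exact h
    | inr a' => rw [hs] at h; exact ih m a' o (by omega) h

/-- A left sweep. -/
theorem left_sweep {q q' : LQ S} {e : Sy S → Sy S} (he1 : ∀ g, (e g).flag = g.flag) (he2 : ∀ g, e (e g) = e g)
    (h1 : ∀ r ib, (∀ τ, (r τ).flag = true) → S.lδ q r ib = .inr (q', fun τ => (e (r τ), .stay), false, none))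
    (h2 : ∀ r ib, (¬ ∀ τ, (r τ).flag = true) →
      S.lδ q r ib = .inr (q, fun τ => (e (r τ), if (r τ).flag = true then .stay else .left), false, none)) :
    ∀ (N hin : ℕ) (T : WT S → ℕ → Sy S) (h : WT S → ℕ) (o : Str), (∀ τ, h τ ≤ N) →
      (∀ τ i, (T τ i).flag = decide (i = 0)) →
      RL S v ⟨q, hin, T, h, o⟩ (N + 1) ⟨q', hin, fun τ i => if i ≤ h τ then e (T τ i) else T τ i, fun _ => 0, o⟩ := by
  intro N
  induction N with
  | zero =>
    intro hin T h o hN hflag
    have hh : ∀ τ, h τ = 0 := fun τ => Nat.le_zero.mp (hN τ)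
    refine RL.cons (b := _) ?_ (RL.refl _)
    have hr : ∀ τ, (T τ (h τ)).flag = true := fun τ => by rw [hflag, hh]; rfl
    unfold astep
    rw [h1 _ _ hr]
    simp only [Bool.false_eq_true, if_false, Option.toList, List.append_nil, Sum.inr.injEq, AC.mk.injEq, true_and,
      and_true]
    refine ⟨?_, ?_⟩
    · funext τ i
      rw [hh]
      by_cases hi : i = 0
      · subst hi; simp
      · rw [Function.update_of_ne hi, if_neg (by omega)]
    · funext τ; rw [hh]; rfl
  | succ N ih =>
    intro hin T h o hN hflag
    by_cases hall : ∀ τ, (T τ (h τ)).flag = true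
    · have hh : ∀ τ, h τ = 0 := fun τ => by
        have := hall τ
        rw [hflag] at this
        simpa using this
      exact (ih hin T h o (fun τ => by rw [hh]; omega) hflag).mono (by omega)
    · set T₁ : WT S → ℕ → Sy S := fun τ => Function.update (T τ) (h τ) (e (T τ (h τ))) with hT₁
      set h₁ : WT S → ℕ := fun τ => h τ - 1 with hh₁
      have hstep : S.astep v ⟨q, hin, T, h, o⟩ = .inr ⟨q, hin, T₁, h₁, o⟩ := by
        unfold astep
        rw [h2 _ _ hall]
        simp only [Bool.false_eq_true, if_false, Option.toList, List.append_nil, Sum.inr.injEq, AC.mk.injEq,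
          true_and, and_true]
        refine ⟨by rw [hT₁], ?_⟩
        funext τ
        rw [hh₁]
        simp only
        rw [hflag]
        by_cases h0 : h τ = 0
        · simp [h0, Move.apply]
        · simp [h0, Move.apply]
      have hflag₁ : ∀ τ i, (T₁ τ i).flag = decide (i = 0) := by
        intro τ i
        rw [hT₁]
        simp only
        by_cases hi : i = h τ
        · subst hi; rw [Function.update_self, he1, hflag]
        · rw [Function.update_of_ne hi, hflag]
      have := ih hin T₁ h₁ o (fun τ => by rw [hh₁]; have := hN τ; simp only; omega) hflag₁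
      have hfin : (fun τ i => if i ≤ h₁ τ then e (T₁ τ i) else T₁ τ i) =
          fun τ i => if i ≤ h τ then e (T τ i) else T τ i := by
        funext τ i
        rw [hT₁, hh₁]
        simp only
        by_cases hi : i = h τ
        · subst hi
          rw [Function.update_self, he2, if_pos le_rfl]
          simp
        · rw [Function.update_of_ne hi]
          by_cases hi2 : i ≤ h τ
          · rw [if_pos hi2, if_pos (by omega)]
          · rw [if_neg hi2, if_neg (by omega)]
      rw [hfin] at this
      exact RL.cons hstep this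

/-- The rewinding before a run. -/
theorem rew_sweep {N hin : ℕ} {T : WT S → ℕ → Sy S} {h : WT S → ℕ} {o : Str} (hN : ∀ τ, h τ ≤ N)
    (hflag : ∀ τ i, (T τ i).flag = decide (i = 0)) :
    RL S v ⟨.inl .rew, hin, T, h, o⟩ (N + 1) ⟨.inr fun j => .inl (S.M j).start, hin, T, fun _ => 0, o⟩ := by
  have := left_sweep (S := S) (v := v) (q := .inl .rew) (q' := .inr fun j => .inl (S.M j).start) (e := id)
    (fun _ => rfl) (fun _ => rfl)
    (fun r ib hr => by
      unfold lδ
      simp only
      rw [if_pos hr]
      rfl)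
    (fun r ib hr => by
      unfold lδ
      simp only
      rw [if_neg hr]
      rfl)
    N hin T h o hN hflag
  simpa using this

/-- The rewinding before the output. -/
theorem rewO_sweep {N hin : ℕ} {T : WT S → ℕ → Sy S} {h : WT S → ℕ} {o : Str} (hN : ∀ τ, h τ ≤ N)
    (hflag : ∀ τ i, (T τ i).flag = decide (i = 0)) :
    RL S v ⟨.inl .rewO, hin, T, h, o⟩ (N + 1) ⟨.inl .outp, hin, T, fun _ => 0, o⟩ := by
  have := left_sweep (S := S) (v := v) (q := .inl .rewO) (q' := .inl .outp) (e := id)
    (fun _ => rfl) (fun _ => rfl)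
    (fun r ib hr => by
      unfold lδ
      simp only
      rw [if_pos hr]
      rfl)
    (fun r ib hr => by
      unfold lδ
      simp only
      rw [if_neg hr]
      rfl)
    N hin T h o hN hflag
  simpa using this

/-- The cleaning. -/
theorem swL_sweep {N hin : ℕ} {w : Vd} {T : WT S → ℕ → Sy S} {h : WT S → ℕ} {o : Str} (hN : ∀ τ, h τ ≤ N)
    (hflag : ∀ τ i, (T τ i).flag = decide (i = 0)) :
    RL S v ⟨.inl (.swL w), hin, T, h, o⟩ (N + 1)
      ⟨.inl (after w), hin, fun τ i => if i ≤ h τ then { T τ i with virt := fun _ => none } else T τ i, fun _ => 0, o⟩ := by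
  exact left_sweep (S := S) (v := v) (q := .inl (.swL w)) (q' := .inl (after w))
    (e := fun g => { g with virt := fun _ => none })
    (fun _ => rfl) (fun _ => rfl)
    (fun r ib hr => by
      unfold lδ
      simp only
      rw [if_pos hr])
    (fun r ib hr => by
      unfold lδ
      simp only
      rw [if_neg hr])
    N hin T h o hN hflag

/-- The sweep to the right. -/
theorem swR_sweep {w : Vd} : ∀ (N hin : ℕ) (T : WT S → ℕ → Sy S) (h m : WT S → ℕ) (o : Str), (∀ τ, h τ ≤ m τ) →
    (∀ τ, m τ ≤ h τ + N) → (∀ τ i, (T τ i).virt τ.1 = none ↔ m τ ≤ i) →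
      RL S v ⟨.inl (.swR w), hin, T, h, o⟩ (N + 1) ⟨.inl (.swL w), hin, T, m, o⟩ := by
  intro N
  induction N with
  | zero =>
    intro hin T h m o hm hN hv
    obtain rfl : h = m := by
      funext τ
      have h1 := hm τ
      have h2 := hN τ
      omega
    refine RL.cons (b := _) ?_ (RL.refl _)
    have hr : ∀ τ, (T τ (h τ)).virt τ.1 = none := fun τ => (hv τ _).mpr le_rfl
    unfold astep lδ
    simp only
    rw [if_pos hr]
    simp only [keep, Bool.false_eq_true, if_false, Option.toList, List.append_nil, Function.update_eq_self]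
    rfl
  | succ N ih =>
    intro hin T h m o hm hN hv
    by_cases hall : ∀ τ, (T τ (h τ)).virt τ.1 = none
    · have hh : ∀ τ, m τ ≤ h τ := fun τ => (hv τ _).mp (hall τ)
      exact (ih hin T h m o hm (fun τ => by have := hh τ; omega) hv).mono (by omega)
    · set h₁ : WT S → ℕ := fun τ => if m τ ≤ h τ then h τ else h τ + 1 with hh₁
      have hstep : S.astep v ⟨.inl (.swR w), hin, T, h, o⟩ = .inr ⟨.inl (.swR w), hin, T, h₁, o⟩ := by
        unfold astep lδ
        simp only
        rw [if_neg hall]
        simp only [Bool.false_eq_true, if_false, Option.toList, List.append_nil, Function.update_eq_self,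
          Sum.inr.injEq, AC.mk.injEq, true_and, and_true]
        funext τ
        rw [hh₁]
        simp only
        by_cases h0 : m τ ≤ h τ
        · rw [if_pos h0, if_pos ((hv τ _).mpr h0)]; rfl
        · rw [if_neg h0, if_neg (fun hc => h0 ((hv τ _).mp hc))]; rfl
      refine RL.cons hstep (ih hin T h₁ m o ?_ ?_ hv)
      · intro τ
        have := hm τ
        rw [hh₁]
        simp only
        split <;> omega
      · intro τ
        have := hN τ
        rw [hh₁]
        simp only
        split <;> omega

end Spec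

end Pool.Agent.ICS
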