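import Pool.Agent.helper10.ICS.Search

set_option autoImplicit false

/-!
# The refuter
-/

namespace Pool.Agent.ICS

open scoped Classical

/-- The refuter: for all `z`, run `U(p, ε, z)` until `C(ε, ε, 1^|z|)` halts, and compute `A(z)` by means of `D`; halt if
the result of the first run is not consistent with the second one. -/
noncomputable abbrev refuter (U C D : TM) : Spec where
  J := J3
  finJ := inferInstance
  M := fun j => match j with | .one => U | .two => C | .three => D
  kp := fun j => match j with | .one => .P | .two => .N | .three => .N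
  kz := fun j => match j with | .one => .Z | .two => .O | .three => .Z
  dep := fun j => match j with | .one => some .two | .two => none | .three => none
  fin := fun st => if st .two = none ∨ st .three = none then none else
    if st .one = some .nothing ∨ st .one = some .dontKnow ∨ st .one = st .three then some (.inr .nxt)
    else some (.inl .nothing)
  inZ := false
  cpP := some (false, true)
  cpZ := none
  tp := ⟨.one, .p⟩
  tz := ⟨.one, .z⟩

section

variable {U C D : TM} {hh : ℕ → ℕ} {A : Set Str}

/-- `D` decides `A`. -/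
def Decides (D : TM) (A : Set Str) : Prop := ∀ z, ∃ n, run D [] [] z n = some (some (Sum.inr (some (chi A z))))

theorem refuter_fst (hC : IsClock C hh) (hD : Decides D A) (p z : Str) :
    ∃ n, (∀ i < n, (refuter U C D).fin ((refuter U C D).fst p z i) = none) ∧
      (refuter U C D).fin ((refuter U C D).fst p z n) =
        if Okay (stat U p [] z (hh z.length)) (chi A z) then some (.inr .nxt) else some (.inl .nothing) := by
  have hc := hC z.length
  obtain ⟨s, hs⟩ := hc.2
  obtain ⟨n₀, hn₀⟩ := hD z
  rw [run_bit_iff] at hn₀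
  obtain ⟨⟨s', h1⟩, h2, h3⟩ := htime_spec D [] [] z ⟨_, hn₀⟩
  have h1' : stat D [] [] z (htime D [] [] z) = some (.bit (chi A z)) := by
    have := stat_mono D [] [] z h2 h1
    rw [hn₀] at this
    rw [h1, this]
  have e2 : ∀ n, (refuter U C D).fst p z n .two = stat C [] [] (List.replicate z.length true) n :=
    fun n => Spec.fst_free (S := refuter U C D) (j := .two) rfl p z n
  have e3 : ∀ n, (refuter U C D).fst p z n .three = stat D [] [] z n :=
    fun n => Spec.fst_free (S := refuter U C D) (j := .three) rfl p z n
  have e1 : ∀ n, hh z.length ≤ n → (refuter U C D).fst p z n .one = stat U p [] z (hh z.length) :=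
    fun n hn => Spec.fst_dep_ge (S := refuter U C D) (j := .one) (c := .two) rfl rfl p z (hh z.length)
      hc.1 hs n hn
  refine ⟨max (hh z.length) (htime D [] [] z), ?_, ?_⟩
  · intro i hi
    show (if _ then _ else _) = _
    rw [e2, e3]
    rcases Nat.lt_or_ge i (hh z.length) with h | h
    · rw [hc.1 i h, if_pos (Or.inl rfl)]
    · rw [h3 i (by omega), if_pos (Or.inr rfl)]
  · show (if _ then _ else if _ then _ else _) = _
    rw [e1 _ (le_max_left _ _), e2, e3, stat_mono C _ _ _ (le_max_left _ _) hs,
      stat_mono D _ _ _ (le_max_right _ _) h1', if_neg (by simp)]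
    by_cases hk : Okay (stat U p [] z (hh z.length)) (chi A z)
    · rw [if_pos hk]; exact if_pos hk
    · rw [if_neg hk]; exact if_neg hk

/-- The next `z`. -/
theorem refuter_next (hC : IsClock C hh) (hD : Decides D A) {p z : Str} {hin hP hZ : ℕ}
    (hok : Okay (stat U p [] z (hh z.length)) (chi A z)) :
    ∃ n hP' hZ', 1 ≤ n ∧ Spec.AR (refuter U C D) p
      (Spec.cc (refuter U C D) .rew hin 0 (gd p) hP 0 (gd z) hZ []) n
      (Spec.cc (refuter U C D) .rew hin 0 (gd p) hP' 0 (gd (nx z)) hZ' []) := by
  obtain ⟨n, h1, h2⟩ := refuter_fst (U := U) hC hD p z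
  rw [if_pos hok] at h2
  obtain ⟨n₁, h3, _, h4⟩ := Spec.round (S := refuter U C D) (v := p) (hin := hin) (μP := 0) (μZ := 0) (o := [])
    (le_max_left hP hZ) (le_max_right hP hZ) h1 h2
  obtain ⟨n₂, _, h5⟩ := Spec.skipZ_reach (S := refuter U C D) (v := p) (hin := hin) (μP := 0) (hP := 0)
    (DP := gd p) (μZ := 0) (DZ := gd z) (o := []) rfl 0 0 rfl
  obtain ⟨hZ', _, n₃, _, h6⟩ := Spec.incZ_reach (S := refuter U C D) (v := p) (hin := hin) (μP := 0) (hP := 0)
    (DP := gd p) (μZ := 0) (o := []) rfl z []
  exact ⟨n₁ + (n₂ + n₃), 0, hZ', by omega, h4.trans (h5.trans h6)⟩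

theorem refuter_start (p : Str) :
    Spec.AR (refuter U C D) p (Spec.a₀ (refuter U C D)) (p.length + 2)
      (Spec.cc (refuter U C D) .rew p.length 0 (gd p) p.length 0 (gd []) 0 []) :=
  Spec.start_reach (S := refuter U C D) (v := p)

/-- The refuter does not halt on consistent programs. -/
theorem refuter_none (hC : IsClock C hh) (hD : Decides D A) {p : Str}
    (hok : ∀ z, Okay (stat U p [] z (hh z.length)) (chi A z)) (n : ℕ) :
    stat (refuter U C D).tm p [] [] n = none := by
  have key : ∀ n z hP hZ, Spec.arun (refuter U C D) p n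
      (Spec.cc (refuter U C D) .rew p.length 0 (gd p) hP 0 (gd z) hZ []) = none := by
    intro n
    induction n using Nat.strong_induction_on with
    | _ n ih =>
      intro z hP hZ
      obtain ⟨n', hP', hZ', h1, h2⟩ := refuter_next (U := U) hC hD (hin := p.length) (hP := hP) (hZ := hZ) (hok z)
      rcases Nat.lt_or_ge n n' with h | h
      · cases ha : Spec.arun (refuter U C D) p n
          (Spec.cc (refuter U C D) .rew p.length 0 (gd p) hP 0 (gd z) hZ []) with
        | none => rfl
        | some o =>
          have := Spec.arun_mono n n' _ o h.le ha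
          rw [← Nat.add_zero n', h2] at this
          simp [Spec.arun] at this
      · obtain ⟨m, rfl⟩ := Nat.exists_eq_add_of_le h
        rw [h2]
        exact ih m (by omega) _ _ _
  cases hs : stat (refuter U C D).tm p [] [] n with
  | none => rfl
  | some s =>
    obtain ⟨o, ho⟩ := (run_isSome_iff (refuter U C D).tm p [] [] n).mpr ⟨s, hs⟩
    have h1 := run_mono _ _ _ _ (Nat.le_add_left n (p.length + 2)) ho
    rw [Spec.run_eq (S := refuter U C D) p p [] rfl, refuter_start p, key] at h1
    simp at h1

/-- The refuter halts on inconsistent programs. -/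
theorem refuter_some (hC : IsClock C hh) (hD : Decides D A) {p : Str}
    (hok : ¬ ∀ z, Okay (stat U p [] z (hh z.length)) (chi A z)) :
    ∃ n s, stat (refuter U C D).tm p [] [] n = some s := by
  push Not at hok
  have hex : ∃ m, ¬ Okay (stat U p [] (en m) (hh (en m).length)) (chi A (en m)) := by
    obtain ⟨z, hz⟩ := hok
    exact ⟨num z, by rw [en_num]; exact hz⟩
  have hm := Nat.find_spec hex
  have hm' := fun j => Nat.find_min (H := hex) (m := j)
  set m := Nat.find hex
  have key : ∀ j ≤ m, ∃ n hP hZ, Spec.AR (refuter U C D) p (Spec.a₀ (refuter U C D)) n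
      (Spec.cc (refuter U C D) .rew p.length 0 (gd p) hP 0 (gd (en j)) hZ []) := by
    intro j
    induction j with
    | zero => intro _; exact ⟨_, _, _, refuter_start p⟩
    | succ j ih =>
      intro hj
      obtain ⟨n, hP, hZ, h1⟩ := ih (by omega)
      obtain ⟨n', hP', hZ', _, h2⟩ := refuter_next (U := U) hC hD (hin := p.length) (hP := hP) (hZ := hZ)
        (not_not.mp (hm' j (by omega)))
      rw [← en_succ] at h2
      exact ⟨n + n', hP', hZ', h1.trans h2⟩
  obtain ⟨n, hP, hZ, h1⟩ := key m le_rfl
  obtain ⟨n', h2, h3⟩ := refuter_fst (U := U) hC hD p (en m)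
  rw [if_neg hm] at h3
  obtain ⟨a, h4⟩ := Spec.halt_reach (S := refuter U C D) (v := p) (hin := p.length) (μP := 0) (μZ := 0) (o := [])
    (le_max_left hP hZ) (le_max_right hP hZ) h2 h3 le_rfl
  have h5 : run (refuter U C D).tm p [] [] (n + (max hP hZ + n' + 2)) =
      some (Spec.aout (refuter U C D) a .nothing) := by
    rw [Spec.run_eq (S := refuter U C D) p p [] rfl, h1, h4]
  exact ⟨_, (run_isSome_iff _ p [] [] _).mp ⟨_, h5⟩⟩

end

end Pool.Agent.ICS
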