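import Pool.Agent.helper10.ICS.Control

set_option autoImplicit false

/-!
# The copying of the input; one round of the loop machine
-/

namespace Pool.Agent.ICS

namespace Spec

open scoped Classical

variable {S : Spec} {v : Str}

/-- Marks after the copying of `i` bits. -/
def cm (c : Option (Bool × Bool)) (i : ℕ) : ℕ :=
  match c with
  | some (true, _) => i
  | _ => 0

/-- Content after the copying of the string `x`. -/
def cd (c : Option (Bool × Bool)) (x : Str) : Str :=
  match c with
  | some (_, true) => x
  | _ => []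

/-- Head after the copying of `i` bits. -/
def ch (c : Option (Bool × Bool)) (i : ℕ) : ℕ :=
  match c with
  | some _ => i
  | none => 0

theorem cm_le (c : Option (Bool × Bool)) (i : ℕ) : cm c i ≤ i := by
  unfold cm; split <;> omega

theorem ch_le (c : Option (Bool × Bool)) (i : ℕ) : ch c i ≤ i := by
  unfold ch; split <;> omega

theorem copy_update (m d : Bool) (i : ℕ) (b : Bool) (hb : v[i]? = some b) :
    Function.update (bs S (cm (some (m, d)) i) (gd (cd (some (m, d)) (v.take i)))) i
      { bs S (cm (some (m, d)) i) (gd (cd (some (m, d)) (v.take i))) i with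
        mark := m, data := if d then some b else none } =
    bs S (cm (some (m, d)) (i + 1)) (gd (cd (some (m, d)) (v.take (i + 1)))) := by
  have hi : i < v.length := by
    by_contra h
    rw [List.getElem?_eq_none (by omega)] at hb
    simp at hb
  funext k
  by_cases hk : k = i
  · subst hk
    rw [Function.update_self]
    have e1 : decide (k < cm (some (m, d)) (k + 1)) = m := by cases m <;> simp [cm]
    have e2 : gd (cd (some (m, d)) (v.take (k + 1))) k = if d = true then some b else none := by
      cases d with
      | true =>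
        show gd (v.take (k + 1)) k = some b
        unfold gd
        rw [List.getElem?_take_of_lt (by omega), hb]
      | false => rfl
    show _ = (⟨decide (k = 0), decide (k < cm (some (m, d)) (k + 1)), gd (cd (some (m, d)) (v.take (k + 1))) k,
      fun _ => none⟩ : Sy S)
    rw [e1, e2]
    rfl
  · rw [Function.update_of_ne hk]
    have e1 : decide (k < cm (some (m, d)) i) = decide (k < cm (some (m, d)) (i + 1)) := by
      cases m
      · rfl
      · show decide (k < i) = decide (k < i + 1)
        congr 1
        simp only [eq_iff_iff]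
        omega
    have e2 : gd (cd (some (m, d)) (v.take i)) k = gd (cd (some (m, d)) (v.take (i + 1))) k := by
      cases d with
      | true =>
        show gd (v.take i) k = gd (v.take (i + 1)) k
        unfold gd
        rcases Nat.lt_or_ge k i with h | h
        · rw [List.getElem?_take_of_lt h, List.getElem?_take_of_lt (by omega)]
        · rw [List.getElem?_eq_none (by simp; omega), List.getElem?_eq_none (by simp; omega)]
      | false => rfl
    unfold bs
    rw [e1, e2]

/-- The configuration after the copying of `i` bits. -/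
def cpc (S : Spec) (v : Str) (q : Ct) (i : ℕ) : AC S :=
  cc S q i (cm S.cpP i) (gd (cd S.cpP (v.take i))) (ch S.cpP i) (cm S.cpZ i) (gd (cd S.cpZ (v.take i))) (ch S.cpZ i) []

theorem setup_step : S.astep v (a₀ S) = .inr (cpc S v .copy 0) := by
  have h0 : ∀ c : Option (Bool × Bool), cm c 0 = 0 := fun c => Nat.le_zero.mp (cm_le c 0)
  have h1 : ∀ c : Option (Bool × Bool), ch c 0 = 0 := fun c => Nat.le_zero.mp (ch_le c 0)
  have h2 : ∀ c : Option (Bool × Bool), cd c (v.take 0) = [] := fun c => by
    unfold cd; split <;> simp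
  unfold astep a₀ lδ cpc cc
  simp only [Bool.false_eq_true, if_false, Option.toList, List.append_nil, Sum.inr.injEq, AC.mk.injEq, true_and,
    and_true]
  refine ⟨?_, ?_⟩
  · funext τ
    have hb : Function.update (fun _ : ℕ => S.bl) 0 { S.bl with flag := true } = bs S 0 (gd []) := by
      funext i
      by_cases hi : i = 0
      · subst hi; rw [Function.update_self]; rfl
      · rw [Function.update_of_ne hi]
        unfold bs bl
        simp [hi, gd]
    rw [hb]
    unfold bT
    cases S.cls τ <;> simp only [h0, h2]
  · funext τ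
    unfold bH
    cases S.cls τ <;> simp only [h1] <;> rfl

theorem copy_step (i : ℕ) (hi : i < v.length) : S.astep v (cpc S v .copy i) = .inr (cpc S v .copy (i + 1)) := by
  have hv : v[i]? = some v[i] := List.getElem?_eq_getElem hi
  unfold astep cpc cc lδ
  simp only [hv, Bool.false_eq_true, if_false, if_true, Option.toList, List.append_nil, Sum.inr.injEq, AC.mk.injEq,
    true_and, and_true]
  have hc : ∀ c : Option (Bool × Bool),
      Function.update (bs S (cm c i) (gd (cd c (v.take i)))) (ch c i)
        (match c with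
        | some (m, d) => ({ bs S (cm c i) (gd (cd c (v.take i))) (ch c i) with
            mark := m, data := if d then some v[i] else none }, Move.right)
        | none => (bs S (cm c i) (gd (cd c (v.take i))) (ch c i), Move.stay)).1 =
      bs S (cm c (i + 1)) (gd (cd c (v.take (i + 1)))) := by
    intro c
    match c with
    | none => exact Function.update_eq_self _ _
    | some (m, d) => exact copy_update m d i v[i] hv
  have hc2 : ∀ c : Option (Bool × Bool),
      (match c with
        | some (m, d) => ({ bs S (cm c i) (gd (cd c (v.take i))) (ch c i) with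
            mark := m, data := if d then some v[i] else none }, Move.right)
        | none => (bs S (cm c i) (gd (cd c (v.take i))) (ch c i), Move.stay)).2.apply (ch c i) = ch c (i + 1) := by
    intro c
    match c with
    | none => rfl
    | some (m, d) => rfl
  refine ⟨?_, ?_⟩
  · funext τ
    cases hk : S.cls τ with
    | P => simp only [bT, bH, hk, cp]; exact hc S.cpP
    | Z => simp only [bT, bH, hk, cp]; exact hc S.cpZ
    | O => simp only [bT, bH, hk, cp]; exact hc S.cpZ
    | N => simp only [bT, bH, hk, cp]; exact Function.update_eq_self _ _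
  · funext τ
    cases hk : S.cls τ with
    | P => simp only [bT, bH, hk, cp]; exact hc2 S.cpP
    | Z => simp only [bT, bH, hk, cp]; exact hc2 S.cpZ
    | O => simp only [bT, bH, hk, cp]; exact hc2 S.cpZ
    | N => simp only [bT, bH, hk, cp]; rfl

theorem copy_end : S.astep v (cpc S v .copy v.length) = .inr (cpc S v .rew v.length) := by
  have hv : v[v.length]? = none := List.getElem?_eq_none le_rfl
  unfold astep cpc cc lδ
  simp only [hv, keep, Bool.false_eq_true, if_false, Option.toList, List.append_nil, Function.update_eq_self]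
  rfl

/-- The beginning of the computation. -/
theorem start_reach : AR S v (a₀ S) (v.length + 2) (cc S .rew v.length (cm S.cpP v.length) (gd (cd S.cpP v))
    (ch S.cpP v.length) (cm S.cpZ v.length) (gd (cd S.cpZ v)) (ch S.cpZ v.length) []) := by
  have h : ∀ n i, i + n = v.length → AR S v (cpc S v .copy i) (n + 1) (cpc S v .rew v.length) := by
    intro n
    induction n with
    | zero =>
      intro i hi
      obtain rfl : i = v.length := by omega
      exact AR.one copy_end
    | succ n ih =>
      intro i hi
      exact AR.cons (copy_step i (by omega)) (ih (i + 1) (by omega))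
  have h2 := AR.cons setup_step (h v.length 0 (by omega))
  have e : cpc S v .rew v.length = cc S .rew v.length (cm S.cpP v.length) (gd (cd S.cpP v))
    (ch S.cpP v.length) (cm S.cpZ v.length) (gd (cd S.cpZ v)) (ch S.cpZ v.length) [] := by
    unfold cpc
    rw [List.take_length]
  rwa [e] at h2

/-- The input of a machine of the family for a given class. -/
def str (k : Cls) (p z : Str) : Str :=
  match k with
  | .P => p
  | .Z => z
  | .O => List.replicate z.length true
  | .N => []

/-- The initial family. -/
def F₀ (S : Spec) (p z : Str) (j : S.J) : PC (S.M j) :=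
  (init (S.M j) (str (S.kp j) p z) [] (str (S.kz j) p z), none)

/-- The status of the family after `n` ticks. -/
noncomputable def fst (S : Spec) (p z : Str) (n : ℕ) (j : S.J) : Option Stop := ((S.tick)^[n] (F₀ S p z) j).2

theorem dec_bT (μP μZ : ℕ) (p z : Str) (τ : WT S) (i : ℕ) :
    S.dec τ (bT S μP (gd p) μZ (gd z) τ i) = ofStr (S.M τ.1) (str (S.cls τ) p z) i := by
  have hD : (bT S μP (gd p) μZ (gd z) τ i).virt = fun _ => none := bT_virt _ _ _ _ _ _
  unfold dec
  rw [hD]
  simp only
  cases hk : S.cls τ with
  | P =>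
    have : (bT S μP (gd p) μZ (gd z) τ i).data = p[i]? := by unfold bT; rw [hk]; rfl
    rw [this]
    unfold ofStr str
    cases p[i]? <;> rfl
  | Z =>
    have : (bT S μP (gd p) μZ (gd z) τ i).data = z[i]? := by unfold bT; rw [hk]; rfl
    rw [this]
    unfold ofStr str
    cases z[i]? <;> rfl
  | O =>
    have : (bT S μP (gd p) μZ (gd z) τ i).data = z[i]? := by unfold bT; rw [hk]; rfl
    rw [this]
    unfold ofStr str
    rcases Nat.lt_or_ge i z.length with h | h
    · rw [List.getElem?_eq_getElem h, List.getElem?_replicate, if_pos h]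
      rfl
    · rw [List.getElem?_eq_none h, List.getElem?_replicate, if_neg (by omega)]
      rfl
  | N =>
    have : (bT S μP (gd p) μZ (gd z) τ i).data = none := by unfold bT; rw [hk]; rfl
    rw [this]
    unfold ofStr str
    simp

theorem Rep₀ (μP μZ : ℕ) (p z : Str) (hin : ℕ) (o : Str) :
    Rep (bT S μP (gd p) μZ (gd z)) 0 (F₀ S p z)
      ⟨.inr fun j => .inl (S.M j).start, hin, bT S μP (gd p) μZ (gd z), fun _ => 0, o⟩ where
  q := rfl
  h := fun τ => rfl
  T := fun τ => by
    refine ⟨0, le_rfl, le_rfl, fun i hi => absurd hi (by omega), fun i _ => ⟨rfl, ?_⟩⟩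
    rw [dec_bT]
    obtain ⟨j, t⟩ := τ
    cases t <;> rfl

/-- A run of the family, with the rewinding. -/
theorem run_reach {hin μP hP μZ hZ N n : ℕ} {p z o : Str} (hP' : hP ≤ N) (hZ' : hZ ≤ N)
    (hfin : ∀ i < n, S.fin (S.fst p z i) = none) :
    ∃ (n' : ℕ) (a : AC S), n' ≤ N + 1 + n ∧ AR S v (cc S .rew hin μP (gd p) hP μZ (gd z) hZ o) n' a ∧
      Rep (bT S μP (gd p) μZ (gd z)) n ((S.tick)^[n] (F₀ S p z)) a ∧ a.hin = hin ∧ a.o = o := by
  have hb : ∀ τ, bH S hP hZ τ ≤ N := by
    intro τ
    unfold bH
    cases S.cls τ <;> simp only <;> omega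
  obtain ⟨n₁, h1, h2⟩ := rew_sweep (S := S) (v := v) (hin := hin) (o := o) hb
    (fun τ i => bT_flag (S := S) μP (gd p) μZ (gd z) τ i)
  obtain ⟨a, h3, h4, h5, h6⟩ := Rep.ticks (v := v) (bT_virt (S := S) μP (gd p) μZ (gd z)) (hin := hin) (o := o) n
    (F₀ S p z) _ 0 (Rep₀ μP μZ p z hin o) rfl rfl hfin
  rw [Nat.zero_add] at h4
  exact ⟨n₁ + n, a, by omega, h2.trans h3, h4, h5, h6⟩

/-- The run halts. -/
theorem halt_reach {hin μP hP μZ hZ N n m : ℕ} {p z o : Str} (hP' : hP ≤ N) (hZ' : hZ ≤ N)
    (hfin : ∀ i < n, S.fin (S.fst p z i) = none) {s : Stop} (hs : S.fin (S.fst p z n) = some (.inl s))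
    (hm : N + n + 2 ≤ m) :
    ∃ a : AC S, S.arun v m (cc S .rew hin μP (gd p) hP μZ (gd z) hZ o) = some (S.aout a s) := by
  obtain ⟨n', a, h1, h2, h3, h4, h5⟩ := run_reach (v := v) (hin := hin) (μP := μP) (μZ := μZ) (o := o) hP' hZ' hfin
  refine ⟨a, ?_⟩
  obtain ⟨k, rfl⟩ : ∃ k, m = n' + (k + 1) := ⟨m - n' - 1, by omega⟩
  rw [h2]
  unfold arun
  have : S.astep v a = .inl s := by
    unfold astep
    rw [h3.q]
    unfold lδ
    have hst : (fun j => (stq ((S.tick)^[n] (F₀ S p z)) j).getRight?) = S.fst p z n :=
      funext fun j => stq_getRight _ j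
    simp only
    rw [hst, hs]
  rw [this]

/-- One round. -/
theorem round {hin μP hP μZ hZ N n : ℕ} {p z o : Str} (hP' : hP ≤ N) (hZ' : hZ ≤ N)
    (hfin : ∀ i < n, S.fin (S.fst p z i) = none) {w : Vd} (hw : S.fin (S.fst p z n) = some (.inr w)) :
    ∃ n', 1 ≤ n' ∧ n' ≤ N + 3 * n + 4 ∧
      AR S v (cc S .rew hin μP (gd p) hP μZ (gd z) hZ o) n' (cc S (after w) hin μP (gd p) 0 μZ (gd z) 0 o) := by
  obtain ⟨n', a, h1, h2, h3, h4, h5⟩ := run_reach (v := v) (hin := hin) (μP := μP) (μZ := μZ) (o := o) hP' hZ' hfin
  choose m hm1 hm2 hm3 hm4 using h3.T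
  have hstep : S.astep v a = .inr ⟨.inl (.swR w), hin, a.T, a.h, o⟩ := by
    unfold astep
    rw [h3.q]
    unfold lδ
    have hst : (fun j => (stq ((S.tick)^[n] (F₀ S p z)) j).getRight?) = S.fst p z n :=
      funext fun j => stq_getRight _ j
    simp only
    rw [hst, hw]
    simp only [keep, Bool.false_eq_true, if_false, Option.toList, List.append_nil, Function.update_eq_self, h4, h5]
    rfl
  have hvirt : ∀ τ i, (a.T τ i).virt τ.1 = none ↔ m τ ≤ i := by
    intro τ i
    rcases Nat.lt_or_ge i (m τ) with h | h
    · rw [hm3 τ i h]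
      simp [h]
    · rw [(hm4 τ i h).1, bT_virt]
      simp [h]
  obtain ⟨n₂, k1, k2⟩ := swR_sweep (S := S) (v := v) (w := w) n hin a.T a.h m o
    (fun τ => by rw [h3.h]; exact hm2 τ) (fun τ => by have := hm1 τ; omega) hvirt
  have hflag : ∀ τ i, (a.T τ i).flag = decide (i = 0) := by
    intro τ i
    rcases Nat.lt_or_ge i (m τ) with h | h
    · rw [hm3 τ i h]
      exact bT_flag _ _ _ _ _ _
    · rw [(hm4 τ i h).1]
      exact bT_flag _ _ _ _ _ _
  obtain ⟨n₃, l1, l2⟩ := swL_sweep (S := S) (v := v) (w := w) (N := n) (hin := hin) (T := a.T) (h := m) (o := o)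
    hm1 hflag
  have hT : (fun τ i => if i ≤ m τ then { a.T τ i with virt := fun _ => none } else a.T τ i) =
      bT S μP (gd p) μZ (gd z) := by
    funext τ i
    have hv := bT_virt (S := S) μP (gd p) μZ (gd z) τ i
    have he : { bT S μP (gd p) μZ (gd z) τ i with virt := fun _ => none } = bT S μP (gd p) μZ (gd z) τ i := by
      rw [← hv]
    split
    · rcases Nat.lt_or_ge i (m τ) with h | h
      · rw [hm3 τ i h]
        exact he
      · rw [(hm4 τ i h).1]
        exact he
    · exact (hm4 τ i (by omega)).1
  have hH : (fun _ : WT S => 0) = bH S 0 0 := by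
    funext τ
    unfold bH
    cases S.cls τ <;> rfl
  rw [hT, hH] at l2
  refine ⟨n' + (1 + (n₂ + n₃)), by omega, by omega, h2.trans ((AR.one hstep).trans (k2.trans l2))⟩

end Spec

end Pool.Agent.ICS
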