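import Pool.Agent.helper10.ICS.Phase

set_option autoImplicit false

/-!
# The run of the family inside the loop machine
-/

namespace Pool.Agent.ICS

namespace Spec

open scoped Classical

variable {S : Spec} {v : Str}

/-- A tick of the family. -/
noncomputable def tick (S : Spec) (F : (j : S.J) → PC (S.M j)) (j : S.J) : PC (S.M j) :=
  if S.active (fun j => (F j).2) j then cstep (S.M j) (F j) else F j

/-- The states of the family. -/
def stq (F : (j : S.J) → PC (S.M j)) (j : S.J) : (S.M j).Q ⊕ Stop :=
  match (F j).2 with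
  | none => .inl (F j).1.state
  | some s => .inr s

theorem stq_getRight (F : (j : S.J) → PC (S.M j)) (j : S.J) : (stq F j).getRight? = (F j).2 := by
  unfold stq
  cases (F j).2 <;> rfl

/-- The loop machine represents the family `F`, after `n` ticks, over the layer `base`. -/
structure Rep (base : WT S → ℕ → Sy S) (n : ℕ) (F : (j : S.J) → PC (S.M j)) (a : AC S) : Prop where
  q : a.q = .inr (stq F)
  h : ∀ τ, a.h τ = (F τ.1).1.head τ.2
  T : ∀ τ, ∃ m ≤ n, (F τ.1).1.head τ.2 ≤ m ∧
    (∀ i < m, a.T τ i = { base τ i with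
      virt := Function.update (fun _ => none) τ.1 (some ((F τ.1).1.tape τ.2 i)) }) ∧
    (∀ i, m ≤ i → a.T τ i = base τ i ∧ (F τ.1).1.tape τ.2 i = S.dec τ (base τ i))

theorem tick_active {F : (j : S.J) → PC (S.M j)} {j : S.J} (h : S.active (fun j => (F j).2) j) :
    S.tick F j = cstep (S.M j) (F j) := if_pos h

theorem tick_not {F : (j : S.J) → PC (S.M j)} {j : S.J} (h : ¬ S.active (fun j => (F j).2) j) :
    S.tick F j = F j := if_neg h

theorem Rep.tick {base : WT S → ℕ → Sy S} (hbase : ∀ τ i, (base τ i).virt = fun _ => none) {n : ℕ}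
    {F : (j : S.J) → PC (S.M j)} {a : AC S} (h : Rep base n F a) (hfin : S.fin (fun j => (F j).2) = none) :
    ∃ a', S.astep v a = .inr a' ∧ Rep base (n + 1) (S.tick F) a' ∧ a'.hin = a.hin ∧ a'.o = a.o := by
  have hst : (fun j => (stq F j).getRight?) = fun j => (F j).2 := funext fun j => stq_getRight F j
  have hl : S.lδ a.q (fun τ => a.T τ (a.h τ)) (v[a.hin]?) = .inr (.inr fun j =>
      (S.comp (stq F) (fun τ => a.T τ (a.h τ)) j).1, fun τ =>
      (S.comp (stq F) (fun τ => a.T τ (a.h τ)) τ.1).2 τ.2, false, none) := by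
    rw [h.q]
    unfold lδ
    simp only
    rw [hst, hfin]
  -- the symbols which the machine `j` sees
  have hdec : ∀ τ : WT S, S.dec τ (a.T τ (a.h τ)) = (F τ.1).1.tape τ.2 ((F τ.1).1.head τ.2) := by
    intro τ
    obtain ⟨m, hm1, hm2, hm3, hm4⟩ := h.T τ
    rw [h.h]
    rcases Nat.lt_or_ge ((F τ.1).1.head τ.2) m with hlt | hge
    · rw [hm3 _ hlt]
      simp [dec]
    · obtain ⟨e1, e2⟩ := hm4 _ hge
      rw [e1, e2]
  -- the three cases
  have hcomp : ∀ j, (S.comp (stq F) (fun τ => a.T τ (a.h τ)) j).1 = stq (S.tick F) j ∧ ∀ t : Tape (S.M j).W,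
      (((S.comp (stq F) (fun τ => a.T τ (a.h τ)) j).2 t = (a.T ⟨j, t⟩ (a.h ⟨j, t⟩), Move.stay)) ∧
        (S.tick F j).1.tape t = (F j).1.tape t ∧ (S.tick F j).1.head t = (F j).1.head t) ∨
      ∃ (b : (S.M j).Γ) (mv : Move), (S.comp (stq F) (fun τ => a.T τ (a.h τ)) j).2 t =
          ({ a.T ⟨j, t⟩ (a.h ⟨j, t⟩) with
            virt := Function.update (a.T ⟨j, t⟩ (a.h ⟨j, t⟩)).virt j (some b) }, mv) ∧
        (S.tick F j).1.tape t = Function.update ((F j).1.tape t) ((F j).1.head t) b ∧
        (S.tick F j).1.head t = mv.apply ((F j).1.head t) := by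
    intro j
    by_cases hact : S.active (fun j => (F j).2) j
    · have hrun : (F j).2 = none := hact.1
      have hstq : stq F j = .inl (F j).1.state := by unfold stq; rw [hrun]
      obtain ⟨cj, sj⟩ : ∃ x, x = F j := ⟨_, rfl⟩
      have hδ : (S.M j).δ (F j).1.state (fun t => S.dec ⟨j, t⟩ (a.T ⟨j, t⟩ (a.h ⟨j, t⟩))) =
          (S.M j).δ (F j).1.state (fun t => (F j).1.tape t ((F j).1.head t)) := by
        congr 1
        funext t
        exact hdec ⟨j, t⟩
      cases hd : (S.M j).δ (F j).1.state (fun t => (F j).1.tape t ((F j).1.head t)) with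
      | inl s =>
        have hnext : next (S.M j) (F j).1 = .inl s := by unfold next; rw [hd]
        have htick : S.tick F j = ((F j).1, some s) := by
          rw [tick_active hact]
          unfold cstep
          rw [hrun]
          simp only
          rw [hnext]
        have hc : S.comp (stq F) (fun τ => a.T τ (a.h τ)) j =
            (.inr s, fun t => (a.T ⟨j, t⟩ (a.h ⟨j, t⟩), .stay)) := by
          unfold comp
          rw [hstq]
          simp only
          rw [hst, if_pos hact, hδ, hd]
        rw [hc]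
        refine ⟨?_, fun t => Or.inl ⟨rfl, by rw [htick], by rw [htick]⟩⟩
        unfold stq
        rw [htick]
      | inr x =>
        obtain ⟨q', f⟩ := x
        have hnext : next (S.M j) (F j).1 = .inr
          { state := q'
            tape := fun t => Function.update ((F j).1.tape t) ((F j).1.head t) (f t).1
            head := fun t => (f t).2.apply ((F j).1.head t) } := by unfold next; rw [hd]
        have htick : S.tick F j = (
          { state := q'
            tape := fun t => Function.update ((F j).1.tape t) ((F j).1.head t) (f t).1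
            head := fun t => (f t).2.apply ((F j).1.head t) }, none) := by
          rw [tick_active hact]
          unfold cstep
          rw [hrun]
          simp only
          rw [hnext]
        have hc : S.comp (stq F) (fun τ => a.T τ (a.h τ)) j =
            (.inl q', fun t => ({ a.T ⟨j, t⟩ (a.h ⟨j, t⟩) with
              virt := Function.update (a.T ⟨j, t⟩ (a.h ⟨j, t⟩)).virt j (some (f t).1) }, (f t).2)) := by
          unfold comp
          rw [hstq]
          simp only
          rw [hst, if_pos hact, hδ, hd]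
        rw [hc]
        refine ⟨?_, fun t => Or.inr ⟨(f t).1, (f t).2, rfl, by rw [htick], by rw [htick]⟩⟩
        unfold stq
        rw [htick]
    · have htick : S.tick F j = F j := tick_not hact
      have hc : S.comp (stq F) (fun τ => a.T τ (a.h τ)) j =
          (stq F j, fun t => (a.T ⟨j, t⟩ (a.h ⟨j, t⟩), .stay)) := by
        unfold comp
        cases hs : stq F j with
        | inr s => rfl
        | inl q =>
          simp only
          rw [hst, if_neg hact]
      rw [hc]
      refine ⟨?_, fun t => Or.inl ⟨rfl, by rw [htick], by rw [htick]⟩⟩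
      unfold stq
      rw [htick]
  have hstep : S.astep v a = .inr
      { q := .inr fun j => (S.comp (stq F) (fun τ => a.T τ (a.h τ)) j).1
        hin := a.hin
        T := fun τ => Function.update (a.T τ) (a.h τ) ((S.comp (stq F) (fun τ => a.T τ (a.h τ)) τ.1).2 τ.2).1
        h := fun τ => ((S.comp (stq F) (fun τ => a.T τ (a.h τ)) τ.1).2 τ.2).2.apply (a.h τ)
        o := a.o } := by
    unfold astep
    rw [hl]
    simp
  refine ⟨_, hstep, ⟨?_, ?_, ?_⟩, rfl, rfl⟩
  · show Sum.inr _ = Sum.inr _
    congr 1
    funext j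
    exact (hcomp j).1
  · rintro ⟨j, t⟩
    show Move.apply ((S.comp (stq F) (fun τ => a.T τ (a.h τ)) j).2 t).2 (a.h ⟨j, t⟩) = (S.tick F j).1.head t
    rw [h.h]
    rcases (hcomp j).2 t with ⟨h1, _, h3⟩ | ⟨b, mv, h1, _, h3⟩
    · rw [h1, h3]; rfl
    · rw [h1, h3]
  · rintro ⟨j, t⟩
    obtain ⟨m, hm1, hm2, hm3, hm4⟩ := h.T ⟨j, t⟩
    show ∃ m ≤ n + 1, (S.tick F j).1.head t ≤ m ∧
      (∀ i < m, Function.update (a.T ⟨j, t⟩) (a.h ⟨j, t⟩) ((S.comp (stq F) (fun τ => a.T τ (a.h τ)) j).2 t).1 i =
        { base ⟨j, t⟩ i with virt := Function.update (fun _ => none) j (some ((S.tick F j).1.tape t i)) }) ∧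
      (∀ i, m ≤ i →
        Function.update (a.T ⟨j, t⟩) (a.h ⟨j, t⟩) ((S.comp (stq F) (fun τ => a.T τ (a.h τ)) j).2 t).1 i = base ⟨j, t⟩ i ∧
        (S.tick F j).1.tape t i = S.dec ⟨j, t⟩ (base ⟨j, t⟩ i))
    have hm2' : (F j).1.head t ≤ m := hm2
    have hh : a.h ⟨j, t⟩ = (F j).1.head t := h.h ⟨j, t⟩
    rcases (hcomp j).2 t with ⟨h1, h2, h3⟩ | ⟨b, mv, h1, h2, h3⟩
    · refine ⟨m, by omega, by rw [h3]; exact hm2', ?_, ?_⟩
      · intro i hi
        rw [h1, h2]
        simp only [Function.update_eq_self]
        exact hm3 i hi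
      · intro i hi
        rw [h1, h2]
        simp only [Function.update_eq_self]
        exact hm4 i hi
    · refine ⟨max m ((F j).1.head t + 1), by omega, ?_, ?_, ?_⟩
      · rw [h3]
        exact (apply_le mv _).trans (le_max_right _ _)
      · intro i hi
        rw [h1, h2, hh]
        by_cases hi2 : i = (F j).1.head t
        · subst hi2
          rw [Function.update_self, Function.update_self]
          rcases Nat.lt_or_ge ((F j).1.head t) m with hlt | hge
          · rw [hm3 _ hlt]
            simp
          · obtain ⟨e1, _⟩ := hm4 _ hge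
            rw [e1, hbase]
        · rw [Function.update_of_ne hi2, Function.update_of_ne hi2]
          have : i < m := by omega
          exact hm3 i this
      · intro i hi
        have hi2 : i ≠ (F j).1.head t := by omega
        rw [h1, h2, hh, Function.update_of_ne hi2, Function.update_of_ne hi2]
        exact hm4 i (by omega)

/-- The ticks. -/
theorem Rep.ticks {base : WT S → ℕ → Sy S} (hbase : ∀ τ i, (base τ i).virt = fun _ => none) {hin : ℕ} {o : Str} :
    ∀ (n : ℕ) (F : (j : S.J) → PC (S.M j)) (a : AC S) (k : ℕ), Rep base k F a → a.hin = hin → a.o = o →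
      (∀ i < n, S.fin (fun j => ((S.tick)^[i] F j).2) = none) →
      ∃ a', AR S v a n a' ∧ Rep base (k + n) ((S.tick)^[n] F) a' ∧ a'.hin = hin ∧ a'.o = o := by
  intro n
  induction n with
  | zero => intro F a k h h1 h2 _; exact ⟨a, AR.refl a, h, h1, h2⟩
  | succ n ih =>
    intro F a k h h1 h2 hfin
    obtain ⟨a₁, e1, e2, e3, e4⟩ := h.tick (v := v) hbase (hfin 0 (by omega))
    obtain ⟨a₂, f1, f2, f3, f4⟩ := ih (S.tick F) a₁ (k + 1) e2 (by rw [e3, h1]) (by rw [e4, h2])
      (fun i hi => by
        have := hfin (i + 1) (by omega)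
        rwa [Function.iterate_succ_apply] at this)
    refine ⟨a₂, AR.cons e1 f1, ?_, f3, f4⟩
    rw [Function.iterate_succ_apply]
    have e : k + 1 + n = k + (n + 1) := by omega
    rwa [e] at f2

end Spec

end Pool.Agent.ICS
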