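import Pool.Agent.helper10.ICS.Family

set_option autoImplicit false

/-!
# The search machine
-/

namespace Pool.Agent.ICS

open scoped Classical

/-- Three machines. -/
inductive J3
  | one
  | two
  | three
deriving DecidableEq, Fintype

/-- The search: for all strings `z` which extend the input and for all `p` which are not longer than the input, run
`U(p, ε, z)`, `C(ε, ε, 1^|z|)` and `R(p, ε, ε)` in parallel until `C` halts. -/
noncomputable abbrev search (U C R : TM) : Spec where
  J := J3
  finJ := inferInstance
  M := fun j => match j with | .one => U | .two => C | .three => R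
  kp := fun j => match j with | .one => .P | .two => .N | .three => .P
  kz := fun j => match j with | .one => .Z | .two => .O | .three => .N
  dep := fun _ => none
  fin := fun st => if st .two = none then none else
    if st .three = none ∧ ∃ b, st .one = some (.bit b) then some (.inr .fail) else some (.inr .pass)
  inZ := false
  cpP := some (true, false)
  cpZ := some (true, true)
  tp := ⟨.one, .p⟩
  tz := ⟨.one, .z⟩

section

variable (U C R : TM) (hh : ℕ → ℕ)

/-- `hh ℓ` is the halting time of `C` on `1^ℓ`. -/
def IsClock : Prop := ∀ l, (∀ m < hh l, stat C [] [] (List.replicate l true) m = none) ∧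
  ∃ s, stat C [] [] (List.replicate l true) (hh l) = some s

/-- The program `p` is an obstacle for `z`. -/
def Bad (p z : Str) : Prop :=
  stat R p [] [] (hh z.length) = none ∧ ∃ b, stat U p [] z (hh z.length) = some (.bit b)

/-- There is no obstacle of length at most `k` for `z`. -/
def Good (k : ℕ) (z : Str) : Prop := ∀ p : Str, p.length ≤ k → ¬ Bad U R hh p z

/-- The configurations between the rounds. -/
noncomputable def sst (v p u : Str) (hP hZ : ℕ) (q : Ct) : Spec.AC (search U C R) :=
  Spec.cc (search U C R) q v.length v.length (gd p) hP v.length (gd (v ++ u)) hZ []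

/-- The search for `z` beginning with `v` gets from `p`, `u` to `p'`, `u'` within `n` steps. -/
def Rch (v : Str) (n : ℕ) (p u p' u' : Str) : Prop :=
  ∀ hP hZ, hP ≤ v.length + u.length → hZ ≤ v.length + u.length →
    ∃ hP' hZ', hP' ≤ v.length + u'.length ∧ hZ' ≤ v.length + u'.length ∧
      Spec.RL (search U C R) v (sst U C R v p u hP hZ .rew) n (sst U C R v p' u' hP' hZ' .rew)

/-- From `p`, `u` the search outputs `x` within `n` steps. -/
def Hlt (v : Str) (n : ℕ) (p u x : Str) : Prop :=
  ∀ hP hZ, hP ≤ v.length + u.length → hZ ≤ v.length + u.length → ∀ m, n ≤ m →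
    Spec.arun (search U C R) v m (sst U C R v p u hP hZ .rew) = some (some (.inl x))

variable {U C R hh}

theorem Rch.trans {v p u p' u' p'' u'' : Str} {n m : ℕ} (h : Rch U C R v n p u p' u')
    (h' : Rch U C R v m p' u' p'' u'') : Rch U C R v (n + m) p u p'' u'' := by
  intro hP hZ h1 h2
  obtain ⟨hP', hZ', h3, h4, h5⟩ := h hP hZ h1 h2
  obtain ⟨hP'', hZ'', h6, h7, h8⟩ := h' hP' hZ' h3 h4
  exact ⟨hP'', hZ'', h6, h7, h5.trans h8⟩

theorem Rch.hlt {v p u p' u' x : Str} {n m : ℕ} (h : Rch U C R v n p u p' u')
    (h' : Hlt U C R v m p' u' x) : Hlt U C R v (n + m) p u x := by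
  intro hP hZ h1 h2 l hl
  obtain ⟨hP', hZ', h3, h4, n', h5, h6⟩ := h hP hZ h1 h2
  obtain ⟨l', rfl⟩ : ∃ l', l = n' + l' := ⟨l - n', by omega⟩
  rw [h6]
  exact h' hP' hZ' h3 h4 l' (by omega)

theorem Rch.mono {v p u p' u' : Str} {n m : ℕ} (h : Rch U C R v n p u p' u') (hnm : n ≤ m) :
    Rch U C R v m p u p' u' := by
  intro hP hZ h1 h2
  obtain ⟨hP', hZ', h3, h4, h5⟩ := h hP hZ h1 h2
  exact ⟨hP', hZ', h3, h4, h5.mono hnm⟩

theorem Rch.refl (v p u : Str) : Rch U C R v 0 p u p u :=
  fun hP hZ h1 h2 => ⟨hP, hZ, h1, h2, Spec.RL.refl _⟩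

/-- One round of the search. -/
theorem search_round (hC : IsClock C hh) {v p u : Str} {hP hZ : ℕ} (h1 : hP ≤ v.length + u.length)
    (h2 : hZ ≤ v.length + u.length) :
    Spec.RL (search U C R) v (sst U C R v p u hP hZ .rew) (v.length + u.length + 3 * hh (v.length + u.length) + 4)
      (sst U C R v p u 0 0 (Spec.after (if Bad U R hh p (v ++ u) then .fail else .pass))) := by
  have hl : (v ++ u).length = v.length + u.length := List.length_append
  have hc := hC (v.length + u.length)
  have e1 : ∀ n, (search U C R).fst p (v ++ u) n .one = stat U p [] (v ++ u) n :=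
    fun n => Spec.fst_free (S := search U C R) (j := .one) rfl p (v ++ u) n
  have e2 : ∀ n, (search U C R).fst p (v ++ u) n .two = stat C [] [] (List.replicate (v.length + u.length) true) n := by
    intro n
    have := Spec.fst_free (S := search U C R) (j := .two) rfl p (v ++ u) n
    rw [← hl]
    exact this
  have e3 : ∀ n, (search U C R).fst p (v ++ u) n .three = stat R p [] [] n :=
    fun n => Spec.fst_free (S := search U C R) (j := .three) rfl p (v ++ u) n
  have hfin : ∀ i < hh (v.length + u.length), (search U C R).fin ((search U C R).fst p (v ++ u) i) = none := by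
    intro i hi
    show (if _ then _ else _) = _
    rw [e2, hc.1 i hi, if_pos rfl]
  have hw : (search U C R).fin ((search U C R).fst p (v ++ u) (hh (v.length + u.length))) =
      some (.inr (if Bad U R hh p (v ++ u) then .fail else .pass)) := by
    obtain ⟨s, hs⟩ := hc.2
    show (if _ then _ else if _ then _ else _) = _
    rw [e1, e2, e3, hs, if_neg (by simp)]
    unfold Bad
    rw [hl]
    split <;> rfl
  obtain ⟨n', _, h4, h5⟩ := Spec.round (S := search U C R) (v := v) (hin := v.length) (μP := v.length)
    (μZ := v.length) (o := []) h1 h2 hfin hw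
  exact ⟨n', h4, h5⟩

variable {k n B : ℕ}

/-- The next `p`. -/
theorem search_pass (hC : IsClock C hh) {v p u : Str} (hp : (nx p).length ≤ v.length)
    (hb : ¬ Bad U R hh p (v ++ u)) (hB : 4 * (v.length + u.length) + 3 * hh (v.length + u.length) + 7 ≤ B) :
    Rch U C R v B p u (nx p) u := by
  intro hP hZ h1 h2
  have h3 := search_round (U := U) (C := C) (R := R) hC (p := p) h1 h2
  rw [if_neg hb] at h3
  have hpl : p.length ≤ v.length := by
    have a1 := (num_bounds p).1
    have a2 := (num_bounds (nx p)).2
    rw [num_nx] at a2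
    by_contra hc
    have : 2 ^ ((nx p).length + 1) ≤ 2 ^ p.length := Nat.pow_le_pow_right (by norm_num) (by omega)
    omega
  obtain ⟨hP', h4, h5⟩ := Spec.incP_reach (S := search U C R) (v := v) (hin := v.length) (μP := v.length)
    (μZ := v.length) (hZ := 0) (DZ := gd (v ++ u)) (o := []) rfl p [] (by simpa using hp)
  simp only [List.length_nil, Nat.zero_add, List.nil_append] at h4 h5
  refine ⟨hP', 0, by omega, by omega, (h3.trans h5).mono (by omega)⟩

/-- The next `z`. -/
theorem search_fail (hC : IsClock C hh) {v p u : Str} (hp : p.length ≤ v.length)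
    (hb : Bad U R hh p (v ++ u)) (hB : 4 * (v.length + u.length) + 3 * hh (v.length + u.length) + 7 ≤ B) :
    Rch U C R v B p u [] (nx u) := by
  intro hP hZ h1 h2
  have h3 := search_round (U := U) (C := C) (R := R) hC (p := p) h1 h2
  rw [if_pos hb] at h3
  have h4 := Spec.clrP_reach (S := search U C R) (v := v) (hin := v.length) (μP := v.length)
    (μZ := v.length) (hZ := 0) (DZ := gd (v ++ u)) (o := []) rfl p p.length 0 (by simp)
  rw [Spec.cl_zero] at h4
  have h5 := Spec.skipZ_reach (S := search U C R) (v := v) (hin := v.length) (μP := v.length) (hP := p.length)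
    (DP := gd []) (μZ := v.length) (DZ := gd (v ++ u)) (o := []) rfl v.length 0 (by simp)
  obtain ⟨hZ', h6, h7⟩ := Spec.incZ_reach (S := search U C R) (v := v) (hin := v.length) (μP := v.length)
    (hP := p.length) (DP := gd []) (μZ := v.length) (o := []) rfl u v
  have hul : u.length ≤ (nx u).length := by
    have a1 := (num_bounds u).1
    have a2 := (num_bounds (nx u)).2
    rw [num_nx] at a2
    by_contra hc
    have : 2 ^ ((nx u).length + 1) ≤ 2 ^ u.length := Nat.pow_le_pow_right (by norm_num) (by omega)
    omega
  refine ⟨p.length, hZ', by omega, by omega, (h3.trans (h4.trans (h5.trans h7))).mono (by omega)⟩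

/-- The output. -/
theorem search_out (hC : IsClock C hh) {v p u : Str} (hp : p.length = v.length) (hn : (nx p).length = p.length + 1)
    (hb : ¬ Bad U R hh p (v ++ u)) (hB : 4 * (v.length + u.length) + 3 * hh (v.length + u.length) + 7 ≤ B) :
    Hlt U C R v B p u (v ++ u) := by
  intro hP hZ h1 h2 m hm
  have h3 := search_round (U := U) (C := C) (R := R) hC (p := p) h1 h2
  rw [if_neg hb] at h3
  have h4 := Spec.incP_end (S := search U C R) (v := v) (hin := v.length) (μP := v.length)
    (μZ := v.length) (hZ := 0) (DZ := gd (v ++ u)) (o := []) rfl p [] (by simpa using hp) hn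
  simp only [List.length_nil, List.nil_append] at h4
  have hH : ∀ τ : WT (search U C R), Spec.bH (search U C R) v.length 0 τ ≤ v.length := by
    intro τ
    unfold Spec.bH
    cases (search U C R).cls τ <;> simp
  have h5 := Spec.rewO_sweep (S := search U C R) (v := v) (hin := v.length) (o := [])
    (T := Spec.bT (search U C R) v.length (gd (List.replicate p.length false)) v.length (gd (v ++ u)))
    (h := Spec.bH (search U C R) v.length 0) hH (Spec.bT_flag _ _ _ _)
  have hH0 : (fun _ : WT (search U C R) => 0) = Spec.bH (search U C R) 0 0 := by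
    funext τ
    unfold Spec.bH
    cases (search U C R).cls τ <;> rfl
  rw [hH0] at h5
  obtain ⟨n', h6, h7⟩ := h3.trans (h4.trans h5)
  obtain ⟨m', rfl⟩ : ∃ m', m = n' + m' := ⟨m - n', by omega⟩
  rw [h7]
  have h8 := Spec.outp_reach (S := search U C R) (v := v) (hin := v.length) (μP := v.length) (hP := 0)
    (DP := gd (List.replicate p.length false)) (μZ := v.length) (o := []) rfl (v ++ u) [] m'
    (by simp only [List.length_append]; omega)
  simp only [List.nil_append, List.length_nil] at h8
  exact h8

/-- The loop over `p` for good `z`. -/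
theorem search_good (hC : IsClock C hh) {v u : Str} (hg : Good U R hh v.length (v ++ u))
    (hB : 4 * (v.length + u.length) + 3 * hh (v.length + u.length) + 7 ≤ B) : ∀ (d i : ℕ),
    i + (d + 1) + 1 = 2 ^ (v.length + 1) → Hlt U C R v ((d + 1) * B) (en i) u (v ++ u) := by
  intro d
  induction d with
  | zero =>
    intro i hi
    have h1 : (en i).length ≤ v.length := (en_length_le i _).mpr (by omega)
    have h2 : ¬ (nx (en i)).length ≤ v.length := by
      rw [← en_succ, en_length_le]
      omega
    have h3 := nx_length (en i)
    have := search_out (B := B) hC (p := en i) (by omega) (by omega) (hg _ h1) hB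
    simpa using this
  | succ d ih =>
    intro i hi
    have h1 : (en i).length ≤ v.length := (en_length_le i _).mpr (by omega)
    have h2 : (nx (en i)).length ≤ v.length := by
      rw [← en_succ, en_length_le]
      omega
    have h3 := (search_pass (B := B) hC h2 (hg _ h1) hB).hlt (by
      have := ih (i + 1) (by omega)
      rwa [en_succ] at this)
    have e : (d + 1 + 1) * B = B + (d + 1) * B := by ring
    rw [e]
    exact h3

/-- The loop over `p` for bad `z`. -/
theorem search_bad (hC : IsClock C hh) {v u : Str} {j : ℕ} (hj : j + 1 < 2 ^ (v.length + 1))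
    (hb : Bad U R hh (en j) (v ++ u))
    (hB : 4 * (v.length + u.length) + 3 * hh (v.length + u.length) + 7 ≤ B) : ∀ (d i : ℕ),
    i + d = j → Rch U C R v ((d + 1) * B) (en i) u [] (nx u) := by
  intro d
  induction d with
  | zero =>
    intro i hi
    obtain rfl : i = j := by omega
    have := search_fail (B := B) hC ((en_length_le i _).mpr hj) hb hB
    simpa using this
  | succ d ih =>
    intro i hi
    by_cases hbi : Bad U R hh (en i) (v ++ u)
    · exact (search_fail (B := B) hC ((en_length_le i _).mpr (by omega)) hbi hB).mono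
        (Nat.le_mul_of_pos_left B (by omega))
    · have h2 : (nx (en i)).length ≤ v.length := by
        rw [← en_succ, en_length_le]
        omega
      have h3 := (search_pass (B := B) hC h2 hbi hB).trans (by
        have := ih (i + 1) (by omega)
        rwa [en_succ] at this)
      have e : (d + 1 + 1) * B = B + (d + 1) * B := by ring
      rw [e]
      exact h3

/-- The loop over `z`. -/
theorem search_loop (hC : IsClock C hh) {v : Str} : ∀ m : ℕ,
    (∀ j < m, ¬ Good U R hh v.length (v ++ en j)) →
    (∀ j ≤ m, 4 * (v.length + (en j).length) + 3 * hh (v.length + (en j).length) + 7 ≤ B) →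
    Rch U C R v (m * (2 ^ (v.length + 1) * B)) [] [] [] (en m) := by
  intro m
  induction m with
  | zero => intro _ _; rw [en_zero]; simpa using Rch.refl v [] []
  | succ m ih =>
    intro h1 h2
    have h3 := ih (fun j hj => h1 j (by omega)) (fun j hj => h2 j (by omega))
    have h4 := h1 m (by omega)
    unfold Good at h4
    push Not at h4
    obtain ⟨p, hp, hb⟩ := h4
    have hpn : num p + 1 < 2 ^ (v.length + 1) := by
      rw [← en_length_le, en_num]
      exact hp
    have h5 := search_bad (B := B) hC (v := v) (u := en m) (j := num p) hpn (by rw [en_num]; exact hb)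
      (h2 m (by omega)) (num p) 0 (by omega)
    rw [← en_succ, en_zero] at h5
    have h6 := h3.trans (h5.mono (m := 2 ^ (v.length + 1) * B) (Nat.mul_le_mul_right B (by omega)))
    have e : (m + 1) * (2 ^ (v.length + 1) * B) = m * (2 ^ (v.length + 1) * B) + 2 ^ (v.length + 1) * B := by ring
    rw [e]
    exact h6

/-- The search succeeds if there is a good `z`. -/
theorem search_run (hC : IsClock C hh) {v : Str} {m : ℕ}
    (h1 : ∀ j < m, ¬ Good U R hh v.length (v ++ en j)) (h2 : Good U R hh v.length (v ++ en m))
    (h3 : ∀ j ≤ m, 4 * (v.length + (en j).length) + 3 * hh (v.length + (en j).length) + 7 ≤ B) {T : ℕ}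
    (hT : v.length + 2 + 4 * 2 ^ (v.length + (en m).length) * B ≤ T) :
    run (search U C R).tm v [] [] T = some (some (.inl (v ++ en m))) := by
  have h4 := search_loop (B := B) hC m h1 h3
  have h5 := search_good (B := B) hC h2 (h3 m le_rfl) (2 ^ (v.length + 1) - 2) 0 (by
    have : 2 ^ 1 ≤ 2 ^ (v.length + 1) := Nat.pow_le_pow_right (by norm_num) (by omega)
    omega)
  rw [en_zero] at h5
  have h6 := h4.hlt h5
  have h7 := Spec.start_reach (S := search U C R) (v := v)
  have hb := (num_bounds (en m)).2
  rw [num_en] at hb
  have hle : m * (2 ^ (v.length + 1) * B) + (2 ^ (v.length + 1) - 2 + 1) * B ≤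
      4 * 2 ^ (v.length + (en m).length) * B := by
    have e1 : (2 ^ (v.length + 1) - 2 + 1) * B ≤ 2 ^ (v.length + 1) * B := Nat.mul_le_mul_right B (by
      have : 2 ^ 1 ≤ 2 ^ (v.length + 1) := Nat.pow_le_pow_right (by norm_num) (by omega)
      omega)
    calc _ ≤ m * (2 ^ (v.length + 1) * B) + 2 ^ (v.length + 1) * B := by omega
      _ = (m + 1) * (2 ^ (v.length + 1) * B) := by ring
      _ ≤ 2 ^ ((en m).length + 1) * (2 ^ (v.length + 1) * B) := Nat.mul_le_mul_right _ hb.le
      _ = 4 * 2 ^ (v.length + (en m).length) * B := by ring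
  rw [Spec.run_eq (S := search U C R) v v [] rfl]
  obtain ⟨T', rfl⟩ : ∃ T', T = v.length + 2 + T' := ⟨T - (v.length + 2), by omega⟩
  rw [h7]
  have h8 := h6 v.length v.length (by omega) (by omega) T' (by omega)
  unfold sst at h8
  rw [List.append_nil] at h8
  exact h8

end

end Pool.Agent.ICS
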